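import Pool.Agent.Helper95_CM.StF

/-!
# CM project: elementary lemmas on the cone algebra (support, levels, `th`, `cder`, `psi`, `VV`)
-/

set_option autoImplicit false
set_option linter.unusedSectionVars false

noncomputable section

namespace Pool.Agent.Helper95_CM.H51

open MvPolynomial

section supp
variable {n : ℕ} {R : Type} [CommRing R]

lemma supp_zero (P : Expo n → Prop) : Supp P (0 : PP n R) := by
  intro s hs; exact absurd (coeff_zero s) hs

lemma supp_add {P : Expo n → Prop} {x y : PP n R} (hx : Supp P x) (hy : Supp P y) :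
    Supp P (x + y) := by
  intro s hs
  by_cases h : coeff s x = 0
  · apply hy s
    intro h2
    apply hs
    rw [coeff_add, h, h2, add_zero]
  · exact hx s h

lemma supp_neg {P : Expo n → Prop} {x : PP n R} (hx : Supp P x) : Supp P (-x) := by
  intro s hs
  apply hx s
  intro h
  apply hs
  rw [coeff_neg, h, neg_zero]

lemma supp_sub {P : Expo n → Prop} {x y : PP n R} (hx : Supp P x) (hy : Supp P y) :
    Supp P (x - y) := by
  rw [sub_eq_add_neg]
  exact supp_add hx (supp_neg hy)

lemma supp_sum {P : Expo n → Prop} {ι : Type} (T : Finset ι) (x : ι → PP n R)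
    (h : ∀ i ∈ T, Supp P (x i)) : Supp P (∑ i ∈ T, x i) := by
  classical
  induction T using Finset.induction_on with
  | empty => rw [Finset.sum_empty]; exact supp_zero P
  | insert a T ha ih =>
    rw [Finset.sum_insert ha]
    exact supp_add (h a (Finset.mem_insert_self a T))
      (ih fun i hi => h i (Finset.mem_insert_of_mem hi))

lemma supp_C_mul {P : Expo n → Prop} {x : PP n R} (a : R) (hx : Supp P x) :
    Supp P (C a * x) := by
  intro s hs
  apply hx s
  intro h
  apply hs
  rw [coeff_C_mul, h, mul_zero]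

lemma supp_monomial {P : Expo n → Prop} (s : Expo n) (a : R) (h : a ≠ 0 → P s) :
    Supp P (monomial s a : PP n R) := by
  classical
  intro t ht
  rw [coeff_monomial] at ht
  split_ifs at ht with h1
  · rw [← h1]; exact h ht
  · exact absurd rfl ht

lemma supp_mul {P Q W : Expo n → Prop} (hPQ : ∀ s t, P s → Q t → W (s + t)) {x y : PP n R}
    (hx : Supp P x) (hy : Supp Q y) : Supp W (x * y) := by
  classical
  intro s hs
  rw [coeff_mul] at hs
  obtain ⟨⟨a, b⟩, hab, hne⟩ := Finset.exists_ne_zero_of_sum_ne_zero hs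
  rw [Finset.HasAntidiagonal.mem_antidiagonal] at hab
  have h1 : coeff a x ≠ 0 := fun h => hne (by simp only [h, zero_mul])
  have h2 : coeff b y ≠ 0 := fun h => hne (by simp only [h, mul_zero])
  have := hPQ a b (hx a h1) (hy b h2)
  simp only at hab
  rw [hab] at this
  exact this

lemma supp_mono {P Q : Expo n → Prop} (h : ∀ s, P s → Q s) {x : PP n R} (hx : Supp P x) :
    Supp Q x := fun s hs => h s (hx s hs)

lemma supp_psi {p : ℕ} (hp : 0 < p) {P Q : Expo n → Prop} (h : ∀ s, P (p • s) → Q s)
    {x : PP n R} (hx : Supp P x) : Supp Q (psi p x) := by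
  intro s hs
  rw [coeff_psi hp] at hs
  exact h s (hx _ hs)

/-- `x` as a sum of its monomials -/
lemma eq_sum_monomial (x : PP n R) : x = x.support.sum fun s => monomial s (coeff s x) :=
  (support_sum_monomial_coeff x).symm

end supp

section cone
variable {n M : ℕ} {b : Bool} {R : Type} [CommRing R]

lemma inCone_add {s t : Expo n} (hs : InCone M false s) (ht : InCone M b t) :
    InCone M b (s + t) := by
  cases b with
  | false =>
    intro k
    have h1 := hs k
    have h2 := ht k
    simp only [Finsupp.add_apply, Nat.mul_add]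
    omega
  | true =>
    intro k
    have h1 := hs k
    have h2 := ht k
    simp only [Finsupp.add_apply, Nat.mul_add]
    omega

lemma inCone_smul {p : ℕ} (hp : 0 < p) {s : Expo n} (hs : InCone M b (p • s)) :
    InCone M b s := by
  cases b with
  | false =>
    intro k
    have h1 := hs k
    simp only [Finsupp.smul_apply, smul_eq_mul] at h1
    have h2 : p * s k.succ ≤ p * (M * s 0) := by
      calc p * s k.succ ≤ M * (p * s 0) := h1
        _ = p * (M * s 0) := by ring
    exact Nat.le_of_mul_le_mul_left h2 hp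
  | true =>
    intro k
    have h1 := hs k
    simp only [Finsupp.smul_apply, smul_eq_mul] at h1
    refine ⟨Nat.pos_of_mul_pos_left h1.1, ?_⟩
    have h2 : p * s k.succ < p * (M * s 0) := by
      calc p * s k.succ < M * (p * s 0) := h1.2
        _ = p * (M * s 0) := by ring
    exact Nat.lt_of_mul_lt_mul_left h2

lemma inCone_gex (β : Grid n M) : InCone M false (gex β) := by
  intro k
  rw [gex_succ, gex_zero]
  have := (β k).2
  omega

lemma isCone_mul {x y : PP n R} (hx : IsCone M false x) (hy : IsCone M b y) :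
    IsCone M b (x * y) := supp_mul (fun _ _ h1 h2 => inCone_add h1 h2) hx hy

lemma isCone_mul' {x y : PP n R} (hx : IsCone M b x) (hy : IsCone M false y) :
    IsCone M b (x * y) := by rw [mul_comm]; exact isCone_mul hy hx

lemma isCone_one : IsCone M false (1 : PP n R) := by
  rw [← C_1]
  refine supp_monomial 0 1 fun _ => ?_
  intro k
  simp

lemma isCone_C (a : R) : IsCone M false (C a : PP n R) := by
  refine supp_monomial 0 a fun _ => ?_
  intro k
  simp

lemma isCone_pow {x : PP n R} (hx : IsCone M false x) (k : ℕ) : IsCone M false (x ^ k) := by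
  induction k with
  | zero => rw [pow_zero]; exact isCone_one
  | succ k ih => rw [pow_succ]; exact isCone_mul ih hx

lemma isCone_Fp (c : Grid n M → R) : IsCone M false (Fp c) :=
  supp_sum _ _ fun β _ => supp_monomial _ _ fun _ => inCone_gex β

lemma isCone_psi {p : ℕ} (hp : 0 < p) {x : PP n R} (hx : IsCone M b x) :
    IsCone M b (psi p x) := supp_psi hp (fun _ h => inCone_smul hp h) hx

end cone

section lev
variable {n M : ℕ} {R : Type} [CommRing R]

lemma hasLev_mul {l m : ℕ} {x y : PP n R} (hx : HasLev l x) (hy : HasLev m y) :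
    HasLev (l + m) (x * y) := by
  refine supp_mul (fun s t h1 h2 => ?_) hx hy
  rw [Finsupp.add_apply, h1, h2]

lemma hasLev_one : HasLev 0 (1 : PP n R) := by
  rw [← C_1]
  exact supp_monomial 0 1 fun _ => rfl

lemma hasLev_C (a : R) : HasLev 0 (C a : PP n R) := supp_monomial 0 a fun _ => rfl

lemma hasLev_pow {l : ℕ} {x : PP n R} (hx : HasLev l x) (k : ℕ) : HasLev (l * k) (x ^ k) := by
  induction k with
  | zero => rw [pow_zero, Nat.mul_zero]; exact hasLev_one
  | succ k ih => rw [pow_succ, Nat.mul_succ]; exact hasLev_mul ih hx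

lemma hasLev_Fp (c : Grid n M → R) : HasLev 1 (Fp c) :=
  supp_sum _ _ fun β _ => supp_monomial _ _ fun _ => gex_zero β

lemma hasLev_psi {p l : ℕ} (hp : 0 < p) {x : PP n R} (hx : HasLev (p * l) x) :
    HasLev l (psi p x) := by
  refine supp_psi hp (fun s h => ?_) hx
  rw [Finsupp.smul_apply, smul_eq_mul] at h
  exact Nat.eq_of_mul_eq_mul_left hp h

end lev

section subring
variable {n M : ℕ} {R : Type} [CommRing R] (S : Subring R)

/-- all coefficients lie in `S` -/
def CS (x : PP n R) : Prop := ∀ s, coeff s x ∈ S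

variable {S}

lemma cs_zero : CS S (0 : PP n R) := by intro s; rw [coeff_zero]; exact S.zero_mem
lemma cs_add {x y : PP n R} (hx : CS S x) (hy : CS S y) : CS S (x + y) := by
  intro s; rw [coeff_add]; exact S.add_mem (hx s) (hy s)
lemma cs_neg {x : PP n R} (hx : CS S x) : CS S (-x) := by
  intro s; rw [coeff_neg]; exact S.neg_mem (hx s)
lemma cs_sub {x y : PP n R} (hx : CS S x) (hy : CS S y) : CS S (x - y) := by
  intro s; rw [coeff_sub]; exact S.sub_mem (hx s) (hy s)
lemma cs_mul {x y : PP n R} (hx : CS S x) (hy : CS S y) : CS S (x * y) := by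
  classical
  intro s
  rw [coeff_mul]
  exact S.sum_mem fun a _ => S.mul_mem (hx _) (hy _)
lemma cs_monomial {s : Expo n} {a : R} (ha : a ∈ S) : CS S (monomial s a : PP n R) := by
  classical
  intro t
  rw [coeff_monomial]
  split_ifs
  · exact ha
  · exact S.zero_mem
lemma cs_C {a : R} (ha : a ∈ S) : CS S (C a : PP n R) := cs_monomial ha
lemma cs_one : CS S (1 : PP n R) := by rw [← C_1]; exact cs_C S.one_mem
lemma cs_pow {x : PP n R} (hx : CS S x) (k : ℕ) : CS S (x ^ k) := by
  induction k with
  | zero => rw [pow_zero]; exact cs_one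
  | succ k ih => rw [pow_succ]; exact cs_mul ih hx
lemma cs_sum {ι : Type} (T : Finset ι) (x : ι → PP n R) (h : ∀ i ∈ T, CS S (x i)) :
    CS S (∑ i ∈ T, x i) := by
  intro s
  rw [coeff_sum]
  exact S.sum_mem fun i hi => h i hi s
lemma cs_Fp {c : Grid n M → R} (hc : ∀ β, c β ∈ S) : CS S (Fp c) :=
  cs_sum _ _ fun β _ => cs_monomial (hc β)
lemma cs_psi {p : ℕ} (hp : 0 < p) {x : PP n R} (hx : CS S x) : CS S (psi p x) := by
  intro s; rw [coeff_psi hp]; exact hx _

end subring

section ops
variable {n M : ℕ} {R : Type} [CommRing R]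

lemma psi_add {p : ℕ} (hp : 0 < p) (x y : PP n R) : psi p (x + y) = psi p x + psi p y := by
  ext s
  rw [coeff_psi hp, coeff_add, coeff_add, coeff_psi hp, coeff_psi hp]

lemma psi_zero {p : ℕ} (hp : 0 < p) : psi p (0 : PP n R) = 0 := by
  ext s
  rw [coeff_psi hp, coeff_zero, coeff_zero]

lemma psi_C_mul {p : ℕ} (hp : 0 < p) (a : R) (x : PP n R) : psi p (C a * x) = C a * psi p x := by
  ext s
  rw [coeff_psi hp, coeff_C_mul, coeff_C_mul, coeff_psi hp]

/-- `psi` as a linear map -/
def psiL {p : ℕ} (hp : 0 < p) : PP n R →ₗ[R] PP n R where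
  toFun := psi p
  map_add' := psi_add hp
  map_smul' a x := by
    rw [smul_eq_C_mul, psi_C_mul hp, smul_eq_C_mul]
    rfl

lemma psi_sub {p : ℕ} (hp : 0 < p) (x y : PP n R) : psi p (x - y) = psi p x - psi p y :=
  map_sub (psiL hp) x y

lemma psi_neg {p : ℕ} (hp : 0 < p) (x : PP n R) : psi p (-x) = -psi p x :=
  map_neg (psiL hp) x

lemma psi_sum {p : ℕ} (hp : 0 < p) {ι : Type} (T : Finset ι) (x : ι → PP n R) :
    psi p (∑ i ∈ T, x i) = ∑ i ∈ T, psi p (x i) := map_sum (psiL hp) x T

lemma smul_le_smul_iff' {p : ℕ} (hp : 0 < p) (s t : Expo n) : p • s ≤ p • t ↔ s ≤ t := by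
  constructor
  · intro h i
    have := h i
    simp only [Finsupp.smul_apply, smul_eq_mul] at this
    exact Nat.le_of_mul_le_mul_left this hp
  · intro h i
    simp only [Finsupp.smul_apply, smul_eq_mul]
    exact Nat.mul_le_mul_left p (h i)

lemma psi_expand_mul {p : ℕ} (hp : 0 < p) (g y : PP n R) :
    psi p (expand p g * y) = g * psi p y := by
  induction g using MvPolynomial.induction_on' with
  | monomial s a =>
    ext t
    rw [coeff_psi hp, expand_monomial, coeff_monomial_mul', coeff_monomial_mul', coeff_psi hp]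
    by_cases h : s ≤ t
    · rw [if_pos h, if_pos ((smul_le_smul_iff' hp s t).2 h)]
      congr 2
      ext i
      simp only [Finsupp.tsub_apply, Finsupp.smul_apply, smul_eq_mul, Nat.mul_sub]
    · rw [if_neg h, if_neg (fun h2 => h ((smul_le_smul_iff' hp s t).1 h2))]
  | add g g' h h' =>
    rw [map_add, add_mul, psi_add hp, h, h', add_mul]

lemma th_monomial (i : Fin (n + 1)) (s : Expo n) (a : R) :
    th i (monomial s a : PP n R) = monomial s ((s i : R) * a) := by
  unfold th
  rw [Derivation.smul_apply, pderiv_monomial, smul_eq_mul, X, monomial_mul, one_mul]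
  by_cases h : s i = 0
  · rw [h]
    simp
  · have e : Finsupp.single i 1 + (s - Finsupp.single i 1) = s := by
      have h1 : Finsupp.single i 1 ≤ s := by
        rw [Finsupp.single_le_iff]
        omega
      exact add_tsub_cancel_of_le h1
    rw [e, mul_comm a]

lemma coeff_th (i : Fin (n + 1)) (x : PP n R) (s : Expo n) :
    coeff s (th i x) = (s i : R) * coeff s x := by
  classical
  induction x using MvPolynomial.induction_on' with
  | monomial t a =>
    rw [th_monomial, coeff_monomial, coeff_monomial]
    split_ifs with h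
    · rw [h]
    · rw [mul_zero]
  | add x y hx hy => rw [map_add, coeff_add, coeff_add, hx, hy, mul_add]

lemma th_psi {p : ℕ} (hp : 0 < p) (i : Fin (n + 1)) (y : PP n R) :
    psi p (th i y) = C (p : R) * th i (psi p y) := by
  ext s
  rw [coeff_psi hp, coeff_th, coeff_C_mul, coeff_th, coeff_psi hp, Finsupp.smul_apply,
    smul_eq_mul, Nat.cast_mul, mul_assoc]

lemma th_expand (p : ℕ) (i : Fin (n + 1)) (g : PP n R) :
    th i (expand p g) = C (p : R) * expand p (th i g) := by
  induction g using MvPolynomial.induction_on' with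
  | monomial s a =>
    rw [expand_monomial, th_monomial, th_monomial, expand_monomial, C_mul_monomial,
      Finsupp.smul_apply, smul_eq_mul, Nat.cast_mul, mul_assoc]
  | add g g' h h' => rw [map_add, map_add, h, h', map_add, map_add, mul_add]

lemma th_hasLev {l : ℕ} {x : PP n R} (hx : HasLev l x) : th 0 x = C (l : R) * x := by
  ext s
  rw [coeff_th, coeff_C_mul]
  by_cases h : coeff s x = 0
  · rw [h, mul_zero, mul_zero]
  · rw [hx s h]

lemma supp_th {P : Expo n → Prop} (i : Fin (n + 1)) {x : PP n R} (hx : Supp P x) :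
    Supp P (th i x) := by
  intro s hs
  apply hx s
  intro h
  apply hs
  rw [coeff_th, h, mul_zero]

lemma cs_th {S : Subring R} (i : Fin (n + 1)) {x : PP n R} (hx : CS S x) : CS S (th i x) := by
  intro s
  rw [coeff_th]
  exact S.mul_mem (natCast_mem S _) (hx s)

variable (d : R →+ R)

lemma cder_add (x y : PP n R) : cder d (x + y) = cder d x + cder d y := by
  ext s
  rw [coeff_cder, coeff_add, coeff_add, coeff_cder, coeff_cder, map_add]

/-- `cder` as an additive map -/
def cderA : PP n R →+ PP n R where
  toFun := cder d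
  map_zero' := by ext s; rw [coeff_cder, coeff_zero, map_zero]
  map_add' := cder_add d

lemma cderA_apply (x : PP n R) : cderA d x = cder d x := rfl

lemma cder_monomial (s : Expo n) (a : R) : cder d (monomial s a : PP n R) = monomial s (d a) := by
  classical
  ext t
  rw [coeff_cder, coeff_monomial, coeff_monomial]
  split_ifs
  · rfl
  · rw [map_zero]

lemma cder_mul (hd : IsDer d) (x y : PP n R) :
    cder d (x * y) = cder d x * y + x * cder d y := by
  classical
  ext s
  rw [coeff_cder, coeff_mul, map_sum, coeff_add, coeff_mul, coeff_mul, ← Finset.sum_add_distrib]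
  refine Finset.sum_congr rfl fun a _ => ?_
  rw [hd, coeff_cder, coeff_cder]

lemma cder_psi {p : ℕ} (hp : 0 < p) (y : PP n R) : psi p (cder d y) = cder d (psi p y) := by
  ext s
  rw [coeff_psi hp, coeff_cder, coeff_cder, coeff_psi hp]

lemma cder_expand (p : ℕ) (g : PP n R) : cder d (expand p g) = expand p (cder d g) := by
  induction g using MvPolynomial.induction_on' with
  | monomial s a => rw [expand_monomial, cder_monomial, cder_monomial, expand_monomial]
  | add g g' h h' => rw [map_add, cder_add, h, h', cder_add, map_add]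

lemma supp_cder {P : Expo n → Prop} {x : PP n R} (hx : Supp P x) : Supp P (cder d x) := by
  intro s hs
  apply hx s
  intro h
  apply hs
  rw [coeff_cder, h, map_zero]

lemma cs_cder {S : Subring R} (hd : ∀ x ∈ S, d x ∈ S) {x : PP n R} (hx : CS S x) :
    CS S (cder d x) := by
  intro s
  rw [coeff_cder]
  exact hd _ (hx s)

end ops

section VVs
variable {n M : ℕ} {R : Type} [CommRing R] (p : ℕ)

lemma VV_eq_sum (F x : PP n R) (T : Finset (Expo n)) (hT : x.support ⊆ T) :
    VV p F x = ∑ s ∈ T, monomial s ((gam p (s 0) : R) * coeff s x) *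
      F ^ (p * mm p (s 0) - s 0) := by
  unfold VV
  refine Finset.sum_subset hT fun s _ hs => ?_
  rw [notMem_support_iff.mp hs, mul_zero, monomial_zero, zero_mul]

lemma VV_add (F x y : PP n R) : VV p F (x + y) = VV p F x + VV p F y := by
  classical
  rw [VV_eq_sum p F (x + y) (x.support ∪ y.support) (support_add),
    VV_eq_sum p F x (x.support ∪ y.support) Finset.subset_union_left,
    VV_eq_sum p F y (x.support ∪ y.support) Finset.subset_union_right, ← Finset.sum_add_distrib]
  refine Finset.sum_congr rfl fun s _ => ?_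
  rw [coeff_add, mul_add, map_add, add_mul]

lemma VV_zero (F : PP n R) : VV p F 0 = 0 := by
  unfold VV
  rw [support_zero, Finset.sum_empty]

/-- `VV` as an additive map -/
def VVA (F : PP n R) : PP n R →+ PP n R where
  toFun := VV p F
  map_zero' := VV_zero p F
  map_add' := VV_add p F

lemma VV_sub (F x y : PP n R) : VV p F (x - y) = VV p F x - VV p F y := map_sub (VVA p F) x y

lemma VV_sum {ι : Type} (F : PP n R) (T : Finset ι) (x : ι → PP n R) :
    VV p F (∑ i ∈ T, x i) = ∑ i ∈ T, VV p F (x i) := map_sum (VVA p F) x T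

lemma VV_hom {l : ℕ} (F : PP n R) {x : PP n R} (hx : HasLev l x) :
    VV p F x = C (gam p l : R) * x * F ^ (p * mm p l - l) := by
  unfold VV
  conv_rhs => rw [eq_sum_monomial x]
  rw [Finset.mul_sum, Finset.sum_mul]
  refine Finset.sum_congr rfl fun s hs => ?_
  have : s 0 = l := hx s (mem_support_iff.1 hs)
  rw [this, C_mul_monomial]

end VVs

section TJs
variable {n M : ℕ} {R : Type} [CommRing R] (p : ℕ) [Fact p.Prime] (z : ℤ_[p] →+* R)

lemma isCone_TJ (J : ℕ) {Dl : PP n R} (h : IsCone M false Dl) : IsCone M false (TJ p z J Dl) :=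
  supp_sum _ _ fun j _ => isCone_mul (isCone_C _) (isCone_pow h j)

lemma cs_TJ {S : Subring R} (hz : ∀ a, z a ∈ S) (J : ℕ) {Dl : PP n R} (h : CS S Dl) :
    CS S (TJ p z J Dl) :=
  cs_sum _ _ fun _ _ => cs_mul (cs_C (hz _)) (cs_pow h _)

lemma TJ_succ (J : ℕ) (Dl : PP n R) :
    TJ p z (J + 1) Dl = TJ p z J Dl + C (z (ee p J)) * Dl ^ J := by
  unfold TJ
  rw [Finset.sum_range_succ]

end TJs

end Pool.Agent.Helper95_CM.H51
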