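import Pool.Agent.Helper95_CM.StF

/-!
# CM project, module GROW: divided powers of the connection
-/

set_option autoImplicit false
set_option linter.unusedSectionVars false

noncomputable section

namespace Pool.Agent.Helper95_CM.H51G

open Finset

section derivation
variable {G : Type} [AddCommGroup G] [LinearOrder G] [IsOrderedAddMonoid G]
  {R : Type} [CommRing R]

lemma hw_support (e : G →+ ℤ) (x : HahnSeries G R) : (hw e x).support ⊆ x.support := by
  intro g hg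
  simp only [HahnSeries.mem_support, hw_coeff] at hg ⊢
  intro h0
  apply hg
  rw [h0, mul_zero]

lemma hw_mul (e : G →+ ℤ) (x y : HahnSeries G R) :
    hw e (x * y) = hw e x * y + x * hw e y := by
  ext g
  rw [hw_coeff, HahnSeries.coeff_add, HahnSeries.coeff_mul,
    HahnSeries.coeff_mul_left' x.isPWO_support (hw_support e x),
    HahnSeries.coeff_mul_right' y.isPWO_support (hw_support e y), Finset.mul_sum,
    ← Finset.sum_add_distrib]
  refine Finset.sum_congr rfl fun a ha => ?_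
  rw [Finset.mem_antidiagonal] at ha
  rw [hw_coeff, hw_coeff, ← ha.2.2, map_add]
  push_cast
  ring

end derivation

section binom

lemma binom {M : Type} [AddCommGroup M] (T : ℕ → M →+ M) (f : ℕ → ℕ → M) (D : ℕ → M)
    (h0 : D 0 = f 0 0) (hD : ∀ i, D (i + 1) = T i (D i))
    (hf : ∀ k l, T (k + l) (f k l) = f (k + 1) l + f k (l + 1)) (i : ℕ) :
    D i = ∑ ij ∈ Finset.HasAntidiagonal.antidiagonal i, i.choose ij.1 • f ij.1 ij.2 := by
  induction i with
  | zero => simp [h0]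
  | succ i ih =>
    rw [hD, ih, map_sum, Finset.sum_antidiagonal_choose_succ_nsmul, ← Finset.sum_add_distrib]
    refine Finset.sum_congr rfl fun a ha => ?_
    rw [Finset.HasAntidiagonal.mem_antidiagonal] at ha
    have h1 : T i (f a.1 a.2) = f (a.1 + 1) a.2 + f a.1 (a.2 + 1) := by
      rw [← hf, ha]
    have h2 : i.choose a.2 = i.choose a.1 := by
      rw [← ha]
      exact Nat.choose_symm_add.symm
    rw [map_nsmul, h1, smul_add, h2, add_comm]

end binom

section padic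
variable (p : ℕ) [Fact p.Prime]

lemma dvd_of_norm (x y : ℤ_[p]) (hx : x ≠ 0) (h : ‖y‖ ≤ ‖x‖) : x ∣ y := by
  have h1 := PadicInt.unitCoeff_spec hx
  have h2 := PadicInt.norm_eq_zpow_neg_valuation hx
  rw [h2] at h
  rw [PadicInt.norm_le_pow_iff_mem_span_pow, Ideal.mem_span_singleton] at h
  rw [h1]
  exact ((PadicInt.unitCoeff hx).isUnit.mul_left_dvd).2 h

lemma nat_dvd_pow (k n : ℕ) (hk : ¬ p ^ (n + 1) ∣ k) : (k : ℤ_[p]) ∣ (p : ℤ_[p]) ^ n := by
  have hk0 : k ≠ 0 := by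
    rintro rfl
    exact hk (dvd_zero _)
  apply dvd_of_norm
  · exact_mod_cast hk0
  · by_contra hlt
    rw [not_le] at hlt
    apply hk
    rw [PadicInt.norm_p_pow, PadicInt.norm_lt_pow_iff_norm_le_pow_sub_one] at hlt
    have h1 : ‖((k : ℤ) : ℤ_[p])‖ ≤ (p : ℝ) ^ (-((n + 1 : ℕ) : ℤ)) := by
      have e : (-((n + 1 : ℕ) : ℤ)) = -(n : ℤ) - 1 := by push_cast; ring
      rw [e]
      exact_mod_cast hlt
    rw [PadicInt.norm_int_le_pow_iff_dvd] at h1
    exact_mod_cast h1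

/-- `i!` divides `p^i` in `ℤ_p` -/
lemma fact_dvd (i : ℕ) : ∃ c : ℤ_[p], (p : ℤ_[p]) ^ i = (i.factorial : ℤ_[p]) * c := by
  have h : ¬ p ^ (i + 1) ∣ i.factorial := by
    intro h
    have h1 := (padicValNat_dvd_iff_le (Nat.factorial_ne_zero i)).1 h
    have h2 := padicValNat_factorial_le (p := p) i
    omega
  exact nat_dvd_pow p _ i h

/-- for `0 < j < p²`, `j` divides `p²` with quotient in `ℤ_p` -/
lemma small_dvd (j : ℕ) (h0 : 0 < j) (h1 : j < p ^ 2) :
    ∃ c : ℤ_[p], (p : ℤ_[p]) ^ 2 = (j : ℤ_[p]) * c := by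
  have h : ¬ p ^ (1 + 1) ∣ j := by
    intro h
    have h2 : p ^ 2 ≤ j := Nat.le_of_dvd h0 h
    omega
  obtain ⟨c, hc⟩ := nat_dvd_pow p j 1 h
  refine ⟨c * p, ?_⟩
  rw [pow_one] at hc
  rw [← mul_assoc, ← hc]
  ring

/-- binomial coefficients of `p`-adic integers -/
lemma prod_choose (a : ℤ_[p]) (l : ℕ) :
    ∏ j ∈ range l, (a - (j : ℤ_[p])) = (l.factorial : ℤ_[p]) * Ring.choose a l := by
  have h := Ring.descPochhammer_eq_factorial_smul_choose a l
  rw [nsmul_eq_mul] at h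
  rw [← h]
  induction l with
  | zero => simp
  | succ l ih =>
    rw [Finset.prod_range_succ, ih (by rw [Ring.descPochhammer_eq_factorial_smul_choose, nsmul_eq_mul]),
      descPochhammer_succ_right, Polynomial.smeval_mul, Polynomial.smeval_sub,
      Polynomial.smeval_X, Polynomial.smeval_natCast]
    simp

end padic

section theta
variable {𝒪 : Type} [CommRing 𝒪]

/-- `Π_{j<k} (θ - j) z` -/
def thp : ℕ → LaurentSeries 𝒪 → LaurentSeries 𝒪
  | 0, z => z
  | k + 1, z => tht 𝒪 (thp k z) - (k : LaurentSeries 𝒪) * thp k z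

/-- divided version of `thp` -/
def bz (k : ℕ) (z : LaurentSeries 𝒪) : LaurentSeries 𝒪 where
  coeff m := ((Ring.choose m k : ℤ) : 𝒪) * z.coeff m
  isPWO_support' := z.isPWO_support.mono (by
    intro g hg h0
    apply hg
    simp [h0])

lemma nat_mul_coeff (k : ℕ) (x : LaurentSeries 𝒪) (m : ℤ) :
    ((k : LaurentSeries 𝒪) * x).coeff m = (k : 𝒪) * x.coeff m := by
  rw [← nsmul_eq_mul, ← nsmul_eq_mul]
  rfl

lemma thp_coeff (k : ℕ) (z : LaurentSeries 𝒪) (m : ℤ) :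
    (thp k z).coeff m = ((∏ j ∈ range k, (m - (j : ℤ)) : ℤ) : 𝒪) * z.coeff m := by
  induction k with
  | zero => simp [thp]
  | succ k ih =>
    rw [Finset.prod_range_succ, thp, HahnSeries.coeff_sub, tht_coeff, nat_mul_coeff, ih]
    push_cast
    ring

lemma thp_eq (k : ℕ) (z : LaurentSeries 𝒪) :
    thp k z = (k.factorial : LaurentSeries 𝒪) * bz k z := by
  ext m
  rw [thp_coeff, nat_mul_coeff]
  change _ = _ * (((Ring.choose m k : ℤ) : 𝒪) * z.coeff m)
  have h := Ring.descPochhammer_eq_factorial_smul_choose m k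
  have h2 : ∏ j ∈ range k, (m - (j : ℤ)) = (k.factorial : ℤ) * Ring.choose m k := by
    rw [nsmul_eq_mul] at h
    rw [← h]
    clear h
    induction k with
    | zero => simp
    | succ k ih =>
      rw [Finset.prod_range_succ, ih, descPochhammer_succ_right, Polynomial.smeval_mul,
        Polynomial.smeval_sub, Polynomial.smeval_X, Polynomial.smeval_natCast]
      simp
  rw [h2]
  push_cast
  ring

lemma tht_mul (x y : LaurentSeries 𝒪) : tht 𝒪 (x * y) = tht 𝒪 x * y + x * tht 𝒪 y :=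
  hw_mul _ x y

lemma tht_C (a : 𝒪) : tht 𝒪 (HahnSeries.C a) = 0 := by
  ext m
  rw [tht_coeff, HahnSeries.coeff_zero]
  by_cases hm : m = 0
  · rw [hm]; simp
  · rw [HahnSeries.C_apply, HahnSeries.coeff_single_of_ne hm, mul_zero]

lemma tht_nat (k : ℕ) : tht 𝒪 (k : LaurentSeries 𝒪) = 0 := by
  rw [← map_natCast (HahnSeries.C : 𝒪 →+* LaurentSeries 𝒪) k]
  exact tht_C _

lemma tht_phT {p : ℕ} (hp : 0 < p) (φ : 𝒪 →+* 𝒪) (x : LaurentSeries 𝒪) :
    tht 𝒪 (phT p φ x) = (p : LaurentSeries 𝒪) * phT p φ (tht 𝒪 x) := by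
  ext m
  rw [tht_coeff, nat_mul_coeff]
  by_cases hm : (p : ℤ) ∣ m
  · obtain ⟨m', rfl⟩ := hm
    rw [phT_coeff hp, phT_coeff hp, tht_coeff, map_mul, map_intCast]
    push_cast
    ring
  · rw [phT_coeff_ne hp _ _ _ hm, phT_coeff_ne hp _ _ _ hm, mul_zero, mul_zero]

lemma phT_C {p : ℕ} (hp : 0 < p) (φ : 𝒪 →+* 𝒪) (a : 𝒪) :
    phT p φ (HahnSeries.C a) = HahnSeries.C (φ a) := by
  ext m
  by_cases hm : (p : ℤ) ∣ m
  · obtain ⟨m', rfl⟩ := hm
    rw [phT_coeff hp]
    by_cases h0 : m' = 0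
    · rw [h0, mul_zero]
      simp
    · have h1 : (p : ℤ) * m' ≠ 0 := mul_ne_zero (by exact_mod_cast hp.ne') h0
      rw [HahnSeries.C_apply, HahnSeries.C_apply, HahnSeries.coeff_single_of_ne h0,
        HahnSeries.coeff_single_of_ne h1, map_zero]
  · have h1 : m ≠ 0 := by
      rintro rfl
      exact hm (dvd_zero _)
    rw [phT_coeff_ne hp _ _ _ hm, HahnSeries.C_apply, HahnSeries.coeff_single_of_ne h1]

end theta

section vec
variable {𝒪 : Type} [CommRing 𝒪] {I : Type} [Fintype I] [DecidableEq I]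
  (Q : Matrix I I (LaurentSeries 𝒪))

lemma nbv_smul (z : LaurentSeries 𝒪) (y : I → LaurentSeries 𝒪) :
    nbv (tht 𝒪) Q (z • y) = tht 𝒪 z • y + z • nbv (tht 𝒪) Q y := by
  ext1 i
  change tht 𝒪 (z * y i) + (Q.mulVec (z • y)) i = tht 𝒪 z * y i + z * (tht 𝒪 (y i) + (Q.mulVec y) i)
  rw [tht_mul, Matrix.mulVec_smul, Pi.smul_apply, smul_eq_mul]
  ring

lemma nbv_smul_const (z : LaurentSeries 𝒪) (hz : tht 𝒪 z = 0) (y : I → LaurentSeries 𝒪) :
    nbv (tht 𝒪) Q (z • y) = z • nbv (tht 𝒪) Q y := by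
  rw [nbv_smul, hz, zero_smul, zero_add]

/-- multiplication by a scalar -/
def scl (c : LaurentSeries 𝒪) : (I → LaurentSeries 𝒪) →+ (I → LaurentSeries 𝒪) where
  toFun y := c • y
  map_zero' := smul_zero c
  map_add' x y := smul_add c x y

lemma dsc_leib (a z : LaurentSeries 𝒪) (y : I → LaurentSeries 𝒪) (i : ℕ) :
    dsc (tht 𝒪) Q a i (z • y) = ∑ ij ∈ Finset.HasAntidiagonal.antidiagonal i,
      i.choose ij.1 • (thp ij.1 z • dsc (tht 𝒪) Q a ij.2 y) := by
  refine binom (fun i => nbv (tht 𝒪) Q + scl (a - (i : LaurentSeries 𝒪)))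
    (fun k l => thp k z • dsc (tht 𝒪) Q a l y) (fun i => dsc (tht 𝒪) Q a i (z • y)) rfl
    (fun i => rfl) ?_ i
  intro k l
  change nbv (tht 𝒪) Q (thp k z • dsc (tht 𝒪) Q a l y) +
    (a - ((k + l : ℕ) : LaurentSeries 𝒪)) • (thp k z • dsc (tht 𝒪) Q a l y) =
    thp (k + 1) z • dsc (tht 𝒪) Q a l y + thp k z • dsc (tht 𝒪) Q a (l + 1) y
  rw [nbv_smul]
  ext1 i
  simp only [thp, dsc, Pi.add_apply, Pi.smul_apply, smul_eq_mul]
  push_cast
  ring

lemma dsc_add (a : LaurentSeries 𝒪) (i : ℕ) (x y : I → LaurentSeries 𝒪) :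
    dsc (tht 𝒪) Q a i (x + y) = dsc (tht 𝒪) Q a i x + dsc (tht 𝒪) Q a i y := by
  induction i with
  | zero => rfl
  | succ i ih =>
    simp only [dsc]
    rw [ih, map_add, smul_add]
    abel

/-- `dsc` as an additive map -/
def dscA (a : LaurentSeries 𝒪) (i : ℕ) : (I → LaurentSeries 𝒪) →+ (I → LaurentSeries 𝒪) :=
  AddMonoidHom.mk' (dsc (tht 𝒪) Q a i) (dsc_add Q a i)

lemma dsc_smul_const (a : LaurentSeries 𝒪) (i : ℕ) (z : LaurentSeries 𝒪) (hz : tht 𝒪 z = 0)
    (x : I → LaurentSeries 𝒪) : dsc (tht 𝒪) Q a i (z • x) = z • dsc (tht 𝒪) Q a i x := by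
  induction i with
  | zero => rfl
  | succ i ih =>
    simp only [dsc]
    rw [ih, nbv_smul_const Q z hz, smul_add, smul_comm]

/-- `Φ(v) = F φ(v)` -/
def Ph (p : ℕ) (φ : 𝒪 →+* 𝒪) (F : Matrix I I (LaurentSeries 𝒪)) :
    (I → LaurentSeries 𝒪) →+ (I → LaurentSeries 𝒪) where
  toFun v := F.mulVec fun i => phT p φ (v i)
  map_zero' := by
    have : (fun i => phT p φ ((0 : I → LaurentSeries 𝒪) i)) = 0 := by
      ext1 i; simp
    rw [this, Matrix.mulVec_zero]
  map_add' x y := by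
    rw [← Matrix.mulVec_add]
    congr 1
    ext1 i
    simp

lemma Ph_smul (p : ℕ) (φ : 𝒪 →+* 𝒪) (F : Matrix I I (LaurentSeries 𝒪))
    (z : LaurentSeries 𝒪) (v : I → LaurentSeries 𝒪) :
    Ph p φ F (z • v) = phT p φ z • Ph p φ F v := by
  change F.mulVec (fun i => phT p φ (z * v i)) = phT p φ z • F.mulVec (fun i => phT p φ (v i))
  rw [← Matrix.mulVec_smul]
  congr 1
  ext1 i
  simp

/-- divisible by `n` -/
def Md (n : LaurentSeries 𝒪) (v : I → LaurentSeries 𝒪) : Prop :=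
  ∃ w : I → LaurentSeries 𝒪, v = n • w

variable {n : LaurentSeries 𝒪}

lemma Md.add {u v : I → LaurentSeries 𝒪} (hu : Md n u) (hv : Md n v) : Md n (u + v) := by
  obtain ⟨a, rfl⟩ := hu
  obtain ⟨b, rfl⟩ := hv
  exact ⟨a + b, (smul_add _ _ _).symm⟩

lemma Md.neg {u : I → LaurentSeries 𝒪} (hu : Md n u) : Md n (-u) := by
  obtain ⟨a, rfl⟩ := hu
  exact ⟨-a, (smul_neg _ _).symm⟩

lemma Md.sub {u v : I → LaurentSeries 𝒪} (hu : Md n u) (hv : Md n v) : Md n (u - v) := by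
  rw [sub_eq_add_neg]; exact hu.add hv.neg

lemma Md.zero : Md n (0 : I → LaurentSeries 𝒪) := ⟨0, (smul_zero _).symm⟩

lemma Md.smul {u : I → LaurentSeries 𝒪} (z : LaurentSeries 𝒪) (hu : Md n u) : Md n (z • u) := by
  obtain ⟨a, rfl⟩ := hu
  exact ⟨z • a, smul_comm _ _ _⟩

lemma Md.sum {ι : Type} (s : Finset ι) (u : ι → I → LaurentSeries 𝒪) (hu : ∀ i ∈ s, Md n (u i)) :
    Md n (∑ i ∈ s, u i) := by
  classical
  induction s using Finset.induction_on with
  | empty => rw [Finset.sum_empty]; exact Md.zero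
  | insert a s ha ih =>
    rw [Finset.sum_insert ha]
    exact (hu a (Finset.mem_insert_self a s)).add
      (ih fun i hi => hu i (Finset.mem_insert_of_mem hi))

lemma Md.nbv (hn : tht 𝒪 n = 0) {u : I → LaurentSeries 𝒪} (hu : Md n u) :
    Md n (nbv (tht 𝒪) Q u) := by
  obtain ⟨a, rfl⟩ := hu
  exact ⟨_, nbv_smul_const Q n hn a⟩

lemma Md.dsc (hn : tht 𝒪 n = 0) (a : LaurentSeries 𝒪) (i : ℕ) {u : I → LaurentSeries 𝒪}
    (hu : Md n u) : Md n (dsc (tht 𝒪) Q a i u) := by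
  obtain ⟨b, rfl⟩ := hu
  exact ⟨_, dsc_smul_const Q a i n hn b⟩

lemma Md.Ph {p : ℕ} {φ : 𝒪 →+* 𝒪} (F : Matrix I I (LaurentSeries 𝒪))
    (hn : phT p φ n = n) {u : I → LaurentSeries 𝒪} (hu : Md n u) : Md n (Ph p φ F u) := by
  obtain ⟨a, rfl⟩ := hu
  exact ⟨_, by rw [Ph_smul, hn]⟩

end vec

section mainpart
variable {𝒪 : Type} [CommRing 𝒪] {I : Type} [Fintype I] [DecidableEq I]
  (Q : Matrix I I (LaurentSeries 𝒪))

lemma tht_sum {ι : Type} (s : Finset ι) (f : ι → LaurentSeries 𝒪) :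
    tht 𝒪 (∑ i ∈ s, f i) = ∑ i ∈ s, tht 𝒪 (f i) := map_sum _ _ _

/-- `∇ Φ = p Φ ∇` modulo `n`, when `n` divides `p^N` -/
lemma nb_Ph {p : ℕ} (hp : 0 < p) (φ : 𝒪 →+* 𝒪) (F : Matrix I I (LaurentSeries 𝒪))
    (n : LaurentSeries 𝒪)
    (hF : Cong n (F.map (tht 𝒪) + Q * F)
      ((p : LaurentSeries 𝒪) • (F * Q.map (phT p φ)))) (v : I → LaurentSeries 𝒪) :
    Md n (nbv (tht 𝒪) Q (Ph p φ F v) - (p : LaurentSeries 𝒪) • Ph p φ F (nbv (tht 𝒪) Q v)) := by
  choose E hE using hF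
  refine ⟨(Matrix.of E).mulVec fun i => phT p φ (v i), ?_⟩
  ext1 i
  have h1 : ∀ j, tht 𝒪 (F i j) + ∑ k, Q i k * F k j =
      (p : LaurentSeries 𝒪) * ∑ k, F i k * phT p φ (Q k j) + n * E i j := by
    intro j
    have h := hE i j
    simp only [Matrix.add_apply, Matrix.map_apply, Matrix.smul_apply, Matrix.mul_apply,
      smul_eq_mul] at h
    rw [← h]
    ring
  have h2 : nbv (tht 𝒪) Q (Ph p φ F v) i =
      ∑ j, (tht 𝒪 (F i j) + ∑ k, Q i k * F k j) * phT p φ (v j) +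
        (p : LaurentSeries 𝒪) * ∑ j, F i j * phT p φ (tht 𝒪 (v j)) := by
    change tht 𝒪 (∑ j, F i j * phT p φ (v j)) + ∑ k, Q i k * (∑ j, F k j * phT p φ (v j)) = _
    rw [tht_sum, Finset.mul_sum]
    simp only [add_mul, Finset.sum_add_distrib, Finset.sum_mul]
    have e1 : ∀ j, tht 𝒪 (F i j * phT p φ (v j)) = tht 𝒪 (F i j) * phT p φ (v j) +
        (p : LaurentSeries 𝒪) * (F i j * phT p φ (tht 𝒪 (v j))) := by
      intro j
      rw [tht_mul, tht_phT hp]
      ring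
    have e2 : ∑ k, Q i k * (∑ j, F k j * phT p φ (v j)) =
        ∑ j, ∑ k, Q i k * F k j * phT p φ (v j) := by
      rw [Finset.sum_comm]
      refine Finset.sum_congr rfl fun k _ => ?_
      rw [Finset.mul_sum]
      refine Finset.sum_congr rfl fun j _ => ?_
      ring
    rw [e2]
    simp only [e1, Finset.sum_add_distrib]
    ring
  have h3 : Ph p φ F (nbv (tht 𝒪) Q v) i =
      ∑ j, F i j * phT p φ (tht 𝒪 (v j)) +
        ∑ j, (∑ k, F i k * phT p φ (Q k j)) * phT p φ (v j) := by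
    change ∑ k, F i k * phT p φ (tht 𝒪 (v k) + ∑ j, Q k j * v j) = _
    simp only [map_add, mul_add, Finset.sum_add_distrib]
    congr 1
    simp only [map_sum, map_mul, Finset.mul_sum, Finset.sum_mul]
    rw [Finset.sum_comm]
    refine Finset.sum_congr rfl fun j _ => Finset.sum_congr rfl fun k _ => ?_
    ring
  change nbv (tht 𝒪) Q (Ph p φ F v) i - (p : LaurentSeries 𝒪) * Ph p φ F (nbv (tht 𝒪) Q v) i =
    n * ∑ j, E i j * phT p φ (v j)
  rw [h2, h3]
  simp only [h1]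
  have e3 : ∑ j, ((p : LaurentSeries 𝒪) * ∑ k, F i k * phT p φ (Q k j) + n * E i j) *
      phT p φ (v j) = (p : LaurentSeries 𝒪) * (∑ j, (∑ k, F i k * phT p φ (Q k j)) *
        phT p φ (v j)) + n * ∑ j, E i j * phT p φ (v j) := by
    rw [Finset.mul_sum, Finset.mul_sum, ← Finset.sum_add_distrib]
    refine Finset.sum_congr rfl fun j _ => ?_
    ring
  rw [e3]
  ring

/-- `Π_{j<b} (p² ∇ + a - j)` -/
def ppE (p : ℕ) (a : LaurentSeries 𝒪) : ℕ → (I → LaurentSeries 𝒪) → (I → LaurentSeries 𝒪)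
  | 0, x => x
  | b + 1, x => (p : LaurentSeries 𝒪) ^ 2 • nbv (tht 𝒪) Q (ppE p a b x) +
      (a - (b : LaurentSeries 𝒪)) • ppE p a b x

/-- constants coming from `ℤ_p` -/
abbrev zc {p : ℕ} [Fact p.Prime] (z : ℤ_[p] →+* 𝒪) : ℤ_[p] →+* LaurentSeries 𝒪 :=
  (HahnSeries.C : 𝒪 →+* LaurentSeries 𝒪).comp z

lemma tht_zc {p : ℕ} [Fact p.Prime] (z : ℤ_[p] →+* 𝒪) (a : ℤ_[p]) : tht 𝒪 (zc z a) = 0 :=
  tht_C _

lemma tht_zc' {p : ℕ} [Fact p.Prime] (z : ℤ_[p] →+* 𝒪) (a : ℤ_[p]) (b : ℕ) :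
    tht 𝒪 (zc z a - (b : LaurentSeries 𝒪)) = 0 := by
  rw [map_sub, tht_zc, tht_nat, sub_zero]

/-- falling factorials of `p² ∇` are divisible -/
lemma ppE_zero_div {p : ℕ} [Fact p.Prime] (z : ℤ_[p] →+* 𝒪) (x : I → LaurentSeries 𝒪) (i : ℕ)
    (hi : i < p ^ 2) : ∃ w, ppE Q p 0 i x = (i.factorial : LaurentSeries 𝒪) • w := by
  -- `(A)_{i+1} x = i! A v_i`
  have key : ∀ i, i < p ^ 2 → ∃ v : I → LaurentSeries 𝒪, ppE Q p 0 (i + 1) x =
      (i.factorial : LaurentSeries 𝒪) • ((p : LaurentSeries 𝒪) ^ 2 • nbv (tht 𝒪) Q v) := by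
    intro i
    induction i with
    | zero =>
      intro _
      refine ⟨x, ?_⟩
      simp [ppE]
    | succ i ih =>
      intro hi
      obtain ⟨v, hv⟩ := ih (by omega)
      obtain ⟨c, hc⟩ := small_dvd p (i + 1) (by omega) hi
      have hc' : (p : LaurentSeries 𝒪) ^ 2 = ((i + 1 : ℕ) : LaurentSeries 𝒪) * zc z c := by
        have := congrArg (zc z) hc
        rwa [map_pow, map_mul, map_natCast, map_natCast] at this
      have hp2 : tht 𝒪 ((p : LaurentSeries 𝒪) ^ 2) = 0 := by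
        have := tht_nat (𝒪 := 𝒪) (p ^ 2)
        rwa [Nat.cast_pow] at this
      refine ⟨zc z c • nbv (tht 𝒪) Q v - v, ?_⟩
      have hfac : ((i + 1).factorial : LaurentSeries 𝒪) =
          ((i + 1 : ℕ) : LaurentSeries 𝒪) * (i.factorial : LaurentSeries 𝒪) := by
        rw [Nat.factorial_succ, Nat.cast_mul]
      rw [ppE, hv, nbv_smul_const Q _ (tht_nat _), nbv_smul_const Q _ hp2, map_sub,
        nbv_smul_const Q _ (tht_zc z c), hfac]
      ext1 k
      simp only [Pi.add_apply, Pi.smul_apply, Pi.sub_apply, smul_eq_mul, zero_sub]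
      linear_combination ((p : LaurentSeries 𝒪) ^ 2 * (i.factorial : LaurentSeries 𝒪) *
        (nbv (tht 𝒪) Q (nbv (tht 𝒪) Q v)) k) * hc'
  cases i with
  | zero => exact ⟨x, by simp [ppE]⟩
  | succ i =>
    obtain ⟨v, hv⟩ := key i (by omega)
    obtain ⟨c, hc⟩ := small_dvd p (i + 1) (by omega) hi
    have hc' : (p : LaurentSeries 𝒪) ^ 2 = ((i + 1 : ℕ) : LaurentSeries 𝒪) * zc z c := by
      have := congrArg (zc z) hc
      rwa [map_pow, map_mul, map_natCast, map_natCast] at this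
    refine ⟨zc z c • nbv (tht 𝒪) Q v, ?_⟩
    rw [hv, hc', Nat.factorial_succ, Nat.cast_mul]
    ext1 k
    simp only [Pi.smul_apply, smul_eq_mul]
    ring

lemma ppE_add (p : ℕ) (a : LaurentSeries 𝒪) (b : ℕ) (x : I → LaurentSeries 𝒪)
    (av : ℕ → LaurentSeries 𝒪) (hav0 : av 0 = 1)
    (hav : ∀ l, av (l + 1) = (a - (l : LaurentSeries 𝒪)) * av l)
    (hc : ∀ l, tht 𝒪 (av l) = 0) :
    ppE Q p a b x = ∑ ij ∈ Finset.HasAntidiagonal.antidiagonal b,
      b.choose ij.1 • (av ij.2 • ppE Q p 0 ij.1 x) := by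
  refine binom (fun i => (scl ((p : LaurentSeries 𝒪) ^ 2)).comp (nbv (tht 𝒪) Q) +
      scl (a - (i : LaurentSeries 𝒪)))
    (fun k l => av l • ppE Q p 0 k x) (fun i => ppE Q p a i x) ?_ (fun i => rfl) ?_ b
  · simp [ppE, hav0]
  · intro k l
    change (p : LaurentSeries 𝒪) ^ 2 • nbv (tht 𝒪) Q (av l • ppE Q p 0 k x) +
      (a - ((k + l : ℕ) : LaurentSeries 𝒪)) • (av l • ppE Q p 0 k x) =
      av l • ppE Q p 0 (k + 1) x + av (l + 1) • ppE Q p 0 k x
    rw [nbv_smul_const Q _ (hc l), hav]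
    ext1 i
    simp only [ppE, Pi.add_apply, Pi.smul_apply, smul_eq_mul]
    push_cast
    ring

/-- `b!` divides `Π_{j<b} (p² ∇ + a - j)` for `b < p²` -/
lemma ppE_div {p : ℕ} [Fact p.Prime] (z : ℤ_[p] →+* 𝒪) (a : ℤ_[p]) (x : I → LaurentSeries 𝒪)
    (b : ℕ) (hb : b < p ^ 2) :
    ∃ w, ppE Q p (zc z a) b x = (b.factorial : LaurentSeries 𝒪) • w := by
  have h := ppE_add Q p (zc z a) b x (fun l => zc z (∏ j ∈ range l, (a - (j : ℤ_[p]))))
    (by simp) (fun l => by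
      rw [Finset.prod_range_succ, map_mul, map_sub, map_natCast]
      ring) (fun l => tht_zc z _)
  rw [h]
  have : ∀ ij : ℕ × ℕ, ∃ w : I → LaurentSeries 𝒪,
      ij ∈ Finset.HasAntidiagonal.antidiagonal b → b.choose ij.1 •
        (zc z (∏ j ∈ range ij.2, (a - (j : ℤ_[p]))) • ppE Q p 0 ij.1 x) =
        (b.factorial : LaurentSeries 𝒪) • w := by
    intro ij
    by_cases hij : ij ∈ Finset.HasAntidiagonal.antidiagonal b
    · have hij' := hij
      rw [Finset.HasAntidiagonal.mem_antidiagonal] at hij'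
      obtain ⟨w, hw⟩ := ppE_zero_div Q z x ij.1 (by omega)
      refine ⟨zc z (Ring.choose a ij.2) • w, fun _ => ?_⟩
      rw [hw, prod_choose, map_mul, map_natCast]
      have hf : (b.choose ij.1 : LaurentSeries 𝒪) * (ij.1.factorial : LaurentSeries 𝒪) *
          (ij.2.factorial : LaurentSeries 𝒪) = (b.factorial : LaurentSeries 𝒪) := by
        have h5 := Nat.choose_mul_factorial_mul_factorial (show ij.1 ≤ b by omega)
        rw [show b - ij.1 = ij.2 by omega] at h5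
        rw [← h5]
        push_cast
        rfl
      rw [← hf]
      ext1 k
      simp only [Pi.smul_apply, smul_eq_mul, nsmul_eq_mul]
      ring
    · exact ⟨0, fun h => absurd h hij⟩
  choose w hw using this
  refine ⟨∑ ij ∈ Finset.HasAntidiagonal.antidiagonal b, w ij, ?_⟩
  rw [Finset.smul_sum]
  exact Finset.sum_congr rfl fun ij hij => hw ij hij

/-- GROW -/
theorem grow : GrowStmt := by
  intro p _ 𝒪 _ z φ I _ _ L Q hO hFA i a x hi
  have hpp : p.Prime := Fact.out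
  have hp : 0 < p := hpp.pos
  obtain ⟨c, hc⟩ := fact_dvd p i
  obtain ⟨P, F, hS⟩ := hFA i
  set n : LaurentSeries 𝒪 := (i.factorial : LaurentSeries 𝒪) with hn
  have hpn : (p : LaurentSeries 𝒪) ^ i = n * zc z c := by
    have := congrArg (zc z) hc
    rwa [map_pow, map_mul, map_natCast, map_natCast] at this
  have hcong : ∀ {X Y : Matrix I I (LaurentSeries 𝒪)},
      Cong ((p : LaurentSeries 𝒪) ^ i) X Y → Cong n X Y := by
    intro X Y h k l
    exact (Dvd.intro _ hpn.symm).trans (h k l)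
  have hnt : tht 𝒪 n = 0 := tht_nat _
  have hnφ : phT p φ n = n := map_natCast _ _
  have hpt : tht 𝒪 (p : LaurentSeries 𝒪) = 0 := tht_nat _
  have hpφ : phT p φ (p : LaurentSeries 𝒪) = p := map_natCast _ _
  have hF := hcong hS.cF
  have hFP := hcong hS.FP
  -- notation
  let Φ := Ph p φ F
  have hΦ : ∀ v, Md n (nbv (tht 𝒪) Q (Φ v) - (p : LaurentSeries 𝒪) • Φ (nbv (tht 𝒪) Q v)) :=
    nb_Ph Q hp φ F n hF
  have hΦ2 : ∀ v, Md n (nbv (tht 𝒪) Q (Φ (Φ v)) -
      (p : LaurentSeries 𝒪) ^ 2 • Φ (Φ (nbv (tht 𝒪) Q v))) := by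
    intro v
    have h1 := hΦ (Φ v)
    have h2 := (Md.Ph (φ := φ) F hnφ (hΦ v)).smul (p : LaurentSeries 𝒪)
    have h3 := h1.add h2
    have e : (p : LaurentSeries 𝒪) ^ 2 • Φ (Φ (nbv (tht 𝒪) Q v)) =
        (p : LaurentSeries 𝒪) • Φ ((p : LaurentSeries 𝒪) • Φ (nbv (tht 𝒪) Q v)) := by
      change _ = _ • Ph p φ F _
      rw [Ph_smul, hpφ, smul_smul, pow_two]
    rw [e]
    change Md n (_ + (p : LaurentSeries 𝒪) • Φ (_ - _)) at h3
    rw [map_sub, smul_sub] at h3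
    convert h3 using 1
    abel
  have hza : ∀ b : ℕ, phT p φ (zc z a - (b : LaurentSeries 𝒪)) = zc z a - (b : LaurentSeries 𝒪) := by
    intro b
    rw [map_sub, map_natCast]
    congr 1
    change phT p φ (HahnSeries.C (z a)) = HahnSeries.C (z a)
    rw [phT_C hp, hO.lin]
  -- `D_b Φ² e = Φ² E_b e`
  have hDE : ∀ (e : I → LaurentSeries 𝒪) (b : ℕ),
      Md n (dsc (tht 𝒪) Q (zc z a) b (Φ (Φ e)) - Φ (Φ (ppE Q p (zc z a) b e))) := by
    intro e b
    induction b with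
    | zero =>
      change Md n (Φ (Φ e) - Φ (Φ e))
      rw [sub_self]
      exact Md.zero
    | succ b ih =>
      have h1 := Md.nbv Q hnt ih
      have h2 := ih.smul (zc z a - (b : LaurentSeries 𝒪))
      have h3 := hΦ2 (ppE Q p (zc z a) b e)
      have h4 := (h1.add h2).add h3
      have hp2φ : phT p φ ((p : LaurentSeries 𝒪) ^ 2) = (p : LaurentSeries 𝒪) ^ 2 := by
        rw [map_pow, hpφ]
      have e1 : Φ (Φ (ppE Q p (zc z a) (b + 1) e)) =
          (p : LaurentSeries 𝒪) ^ 2 • Φ (Φ (nbv (tht 𝒪) Q (ppE Q p (zc z a) b e))) +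
          (zc z a - (b : LaurentSeries 𝒪)) • Φ (Φ (ppE Q p (zc z a) b e)) := by
        change Φ (Φ ((p : LaurentSeries 𝒪) ^ 2 • nbv (tht 𝒪) Q (ppE Q p (zc z a) b e) +
          (zc z a - (b : LaurentSeries 𝒪)) • ppE Q p (zc z a) b e)) = _
        rw [map_add, map_add]
        change Ph p φ F (Ph p φ F _) + Ph p φ F (Ph p φ F _) = _
        rw [Ph_smul, Ph_smul, Ph_smul, Ph_smul, hp2φ, hp2φ, hza, hza]
      rw [e1]
      change Md n (nbv (tht 𝒪) Q (dsc (tht 𝒪) Q (zc z a) b (Φ (Φ e))) +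
        (zc z a - (b : LaurentSeries 𝒪)) • dsc (tht 𝒪) Q (zc z a) b (Φ (Φ e)) - _)
      rw [map_sub, smul_sub] at h4
      convert h4 using 1
      abel
  -- each `z Φ² e`
  have hterm : ∀ (y : LaurentSeries 𝒪) (e : I → LaurentSeries 𝒪),
      Md n (dsc (tht 𝒪) Q (zc z a) i (y • Φ (Φ e))) := by
    intro y e
    rw [dsc_leib]
    refine Md.sum _ _ fun ij hij => ?_
    rw [Finset.HasAntidiagonal.mem_antidiagonal] at hij
    obtain ⟨w, hw⟩ := ppE_div Q z a e ij.2 (by omega)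
    have h1 := (hDE e ij.2).smul ((i.choose ij.1 : LaurentSeries 𝒪) * thp ij.1 y)
    have h2 : Md n (((i.choose ij.1 : LaurentSeries 𝒪) * thp ij.1 y) •
        Φ (Φ (ppE Q p (zc z a) ij.2 e))) := by
      refine ⟨bz ij.1 y • Φ (Φ w), ?_⟩
      rw [hw, thp_eq]
      have e2 : Φ (Φ ((ij.2.factorial : LaurentSeries 𝒪) • w)) =
          (ij.2.factorial : LaurentSeries 𝒪) • Φ (Φ w) := by
        change Ph p φ F (Ph p φ F _) = _
        rw [Ph_smul, Ph_smul, map_natCast, map_natCast]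
      rw [e2]
      have hf : (i.choose ij.1 : LaurentSeries 𝒪) * (ij.1.factorial : LaurentSeries 𝒪) *
          (ij.2.factorial : LaurentSeries 𝒪) = n := by
        have h5 := Nat.choose_mul_factorial_mul_factorial (show ij.1 ≤ i by omega)
        rw [show i - ij.1 = ij.2 by omega] at h5
        rw [hn, ← h5]
        push_cast
        rfl
      rw [← hf]
      ext1 k
      simp only [Pi.smul_apply, smul_eq_mul]
      ring
    have h3 := h1.add h2
    convert h3 using 1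
    rw [← smul_add, sub_add_cancel]
    ext1 k
    simp only [Pi.smul_apply, smul_eq_mul, nsmul_eq_mul]
    ring
  -- `p^(2L) x` is a combination of `Φ² e_k`
  choose G hG using hFP
  have hexp : ∀ v : I → LaurentSeries 𝒪, Md n ((p : LaurentSeries 𝒪) ^ L • v -
      ∑ j, (P.mulVec v) j • Φ (Pi.single j 1)) := by
    intro v
    have e1 : ∑ j, (P.mulVec v) j • Φ (Pi.single j 1) = F.mulVec (P.mulVec v) := by
      ext1 k
      rw [Finset.sum_apply]
      change _ = ∑ j, F k j * (P.mulVec v) j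
      refine Finset.sum_congr rfl fun j _ => ?_
      have e2 : Φ (Pi.single j 1) k = F k j := by
        change ∑ l, F k l * phT p φ ((Pi.single j 1 : I → LaurentSeries 𝒪) l) = _
        rw [Finset.sum_eq_single j]
        · rw [Pi.single_eq_same, map_one, mul_one]
        · intro l _ hl
          rw [Pi.single_eq_of_ne hl, map_zero, mul_zero]
        · intro h; exact absurd (Finset.mem_univ j) h
      rw [Pi.smul_apply, smul_eq_mul, e2, mul_comm]
    refine ⟨-(Matrix.of G).mulVec v, ?_⟩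
    rw [e1, Matrix.mulVec_mulVec]
    ext1 k
    have h2 : ∀ l, (F * P) k l = (p : LaurentSeries 𝒪) ^ L * (1 : Matrix I I (LaurentSeries 𝒪)) k l +
        n * G k l := by
      intro l
      have h := hG k l
      rw [Matrix.smul_apply, smul_eq_mul] at h
      rw [← h]
      ring
    change (p : LaurentSeries 𝒪) ^ L * v k - ∑ l, (F * P) k l * v l =
      n * (-∑ l, G k l * v l)
    simp only [h2, add_mul, Finset.sum_add_distrib]
    have e3 : ∑ l, (p : LaurentSeries 𝒪) ^ L * (1 : Matrix I I (LaurentSeries 𝒪)) k l * v l =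
        (p : LaurentSeries 𝒪) ^ L * v k := by
      rw [Finset.sum_eq_single k]
      · rw [Matrix.one_apply_eq, mul_one]
      · intro l _ hl
        rw [Matrix.one_apply_ne hl.symm, mul_zero, zero_mul]
      · intro h; exact absurd (Finset.mem_univ k) h
    have e4 : ∑ l, n * G k l * v l = n * ∑ l, G k l * v l := by
      rw [Finset.mul_sum]
      refine Finset.sum_congr rfl fun l _ => ?_
      ring
    rw [e3, e4]
    ring
  have hexp2 : ∀ j : I, Md n ((p : LaurentSeries 𝒪) ^ L • Φ (Pi.single j 1) -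
      ∑ k, phT p φ ((P.mulVec (Pi.single j 1)) k) • Φ (Φ (Pi.single k 1))) := by
    intro j
    have h := Md.Ph (φ := φ) F hnφ (hexp (Pi.single j 1))
    change Md n (Φ _) at h
    rw [map_sub, map_sum] at h
    have e1 : Φ ((p : LaurentSeries 𝒪) ^ L • Pi.single j 1) =
        (p : LaurentSeries 𝒪) ^ L • Φ (Pi.single j 1) := by
      change Ph p φ F _ = _
      rw [Ph_smul, map_pow, hpφ]
    rw [e1] at h
    convert h using 2
    refine Finset.sum_congr rfl fun k _ => ?_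
    change _ = Ph p φ F _
    rw [Ph_smul]
  have hfin : Md n ((p : LaurentSeries 𝒪) ^ (2 * L) • x -
      ∑ j, ∑ k, ((P.mulVec x) j * phT p φ ((P.mulVec (Pi.single j 1)) k)) •
        Φ (Φ (Pi.single k 1))) := by
    have h1 := (hexp x).smul ((p : LaurentSeries 𝒪) ^ L)
    have h2 := Md.sum Finset.univ _ fun j _ => (hexp2 j).smul ((P.mulVec x) j)
    have h3 := h1.add h2
    convert h3 using 1
    rw [smul_sub, smul_smul, ← pow_add, two_mul, Finset.smul_sum]
    simp only [smul_sub, Finset.sum_sub_distrib, Finset.smul_sum]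
    have e1 : ∀ j, (p : LaurentSeries 𝒪) ^ L • (P.mulVec x) j • Φ (Pi.single j 1) =
        (P.mulVec x) j • (p : LaurentSeries 𝒪) ^ L • Φ (Pi.single j 1) := fun j => smul_comm _ _ _
    simp only [e1, mul_smul]
    abel
  have h1 := Md.dsc Q hnt (zc z a) i hfin
  have h2 : Md n (dsc (tht 𝒪) Q (zc z a) i (∑ j, ∑ k,
      ((P.mulVec x) j * phT p φ ((P.mulVec (Pi.single j 1)) k)) • Φ (Φ (Pi.single k 1)))) := by
    have e : ∀ v, dsc (tht 𝒪) Q (zc z a) i v = dscA Q (zc z a) i v := fun v => rfl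
    rw [e, map_sum]
    refine Md.sum _ _ fun j _ => ?_
    rw [map_sum]
    refine Md.sum _ _ fun k _ => ?_
    exact hterm _ _
  have h3 := h1.add h2
  have e : dsc (tht 𝒪) Q (zc z a) i ((p : LaurentSeries 𝒪) ^ (2 * L) • x) =
      (p : LaurentSeries 𝒪) ^ (2 * L) • dsc (tht 𝒪) Q (zc z a) i x := by
    apply dsc_smul_const
    have := tht_nat (𝒪 := 𝒪) (p ^ (2 * L))
    rwa [Nat.cast_pow] at this
  obtain ⟨w, hw⟩ := h3
  refine ⟨w, ?_⟩
  have e3 : ∀ u v, dsc (tht 𝒪) Q (zc z a) i (u - v) =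
      dsc (tht 𝒪) Q (zc z a) i u - dsc (tht 𝒪) Q (zc z a) i v :=
    fun u v => map_sub (dscA Q (zc z a) i) u v
  rw [e3, sub_add_cancel, e] at hw
  exact hw.symm

end mainpart

end Pool.Agent.Helper95_CM.H51G
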