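import Pool.Agent.Helper77_CM.Dle
import Pool.Agent.Helper10_CM.Emx
import Pool.Agent.Helper18_CM.Lau
import Pool.Agent.Helper53_CM.Base

/-!
# CM project (MP_31342c_an): module POL
Pole orders of the Frobenius matrices over a base of Laurent series.
-/

set_option autoImplicit false
set_option linter.unusedSectionVars false

noncomputable section

namespace Pool.Agent.Helper95_CM.H51P

open MvPolynomial Pool.Agent.Helper95_CM H77

section ord
variable {𝒪 : Type} [CommRing 𝒪]

lemma ordGe_phT {p : ℕ} (hp : 0 < p) (f : 𝒪 →+* 𝒪) {x : LaurentSeries 𝒪} {m : ℤ}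
    (hx : OrdGe m x) : OrdGe ((p : ℤ) * m) (phT p f x) := by
  intro i hi
  by_cases h : (p : ℤ) ∣ i
  · obtain ⟨k, rfl⟩ := h
    rw [phT_coeff hp, hx k ?_, map_zero]
    exact lt_of_mul_lt_mul_left hi (by positivity)
  · exact phT_coeff_ne hp f x i h

lemma ordGe_pow {x : LaurentSeries 𝒪} {a : ℤ} (hx : OrdGe a x) (k : ℕ) :
    OrdGe ((k : ℤ) * a) (x ^ k) := by
  induction k with
  | zero => simpa using (H18.ordGe_one (𝒪 := 𝒪))
  | succ k ih =>
    rw [pow_succ]
    have := H18.ordGe_mul_gen ih hx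
    refine H18.ordGe_mono ?_ this
    push_cast
    linarith

/-- the subring of power series -/
def pwS (𝒪 : Type) [CommRing 𝒪] : Subring (LaurentSeries 𝒪) where
  carrier := {x | OrdGe 0 x}
  mul_mem' hx hy := H18.ordGe_mul0 hx hy
  one_mem' := H18.ordGe_one
  add_mem' hx hy := H18.ordGe_add hx hy
  zero_mem' := H18.ordGe_zero
  neg_mem' hx := H18.ordGe_neg hx

lemma mem_pwS {x : LaurentSeries 𝒪} : x ∈ pwS 𝒪 ↔ OrdGe 0 x := Iff.rfl

lemma natCast_mul_coeff (p : ℕ) (x : LaurentSeries 𝒪) (i : ℤ) :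
    ((p : LaurentSeries 𝒪) * x).coeff i = (p : 𝒪) * x.coeff i := by
  rw [← map_natCast (HahnSeries.C : 𝒪 →+* LaurentSeries 𝒪), HahnSeries.C_mul_eq_smul,
    HahnSeries.coeff_smul, smul_eq_mul]

lemma tf_coeff {p : ℕ} (htf : ∀ x : LaurentSeries 𝒪, (p : LaurentSeries 𝒪) * x = 0 → x = 0)
    (a : 𝒪) (h : (p : 𝒪) * a = 0) : a = 0 := by
  have h1 : (HahnSeries.C a : LaurentSeries 𝒪) = 0 := by
    apply htf
    ext i
    rw [natCast_mul_coeff, HahnSeries.C_apply, HahnSeries.coeff_single]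
    split_ifs
    · rw [h]; rfl
    · rw [mul_zero]; rfl
  have h2 := congrArg (fun x => HahnSeries.coeff x 0) h1
  simpa using h2

end ord

/-- coefficients of the basis elements -/
lemma coefIn_bb {n M : ℕ} {b : Bool} (A : CAD n M b) {R : Type} [CommRing R] {S : Subring R}
    {c : Grid n M → R} (hc : ∀ β, c β ∈ S) (s : Expo n) : CoefIn S (bb A c s) := by
  intro t
  have h := H53.map_bbo S.subtype b A.top (fun β => (⟨c β, hc β⟩ : S)) s
  have h2 : bb A c s = map S.subtype (bbo b A.top (fun β => (⟨c β, hc β⟩ : S)) s) := by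
    rw [h]
    rfl
  rw [h2, coeff_map]
  exact (coeff t _ : S).2

lemma coefIn_expand {n p : ℕ} {R : Type} [CommRing R] {S : Subring R} {x : PP n R}
    (hx : CoefIn S x) : CoefIn S (expand p x) := by
  classical
  have h1 : expand p x = ∑ s ∈ x.support, monomial (p • s) (coeff s x) := by
    conv_lhs => rw [← support_sum_monomial_coeff x]
    rw [map_sum]
    refine Finset.sum_congr rfl fun s _ => ?_
    rw [expand_monomial]
  rw [h1]
  exact CoefIn.sum _ _ fun s _ => CoefIn.monomial (hx s)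

/-- coordinates of an element with power series coefficients -/
lemma crd_ord (h4 : Hb4Stmt) {n M : ℕ} {b : Bool} (A : CAD n M b) {𝒪 : Type} [CommRing 𝒪]
    {c : Grid n M → LaurentSeries 𝒪} (hn : 1 ≤ n) (hM : 1 ≤ M) (hu : IsUnit (dt A c))
    (hc : ∀ β, OrdGe 0 (c β)) {e : ℕ} (he : OrdGe (-(e : ℤ)) (Ring.inverse (dt A c)))
    {l : ℕ} {x : PP n (LaurentSeries 𝒪)} (hx : CoefIn (pwS 𝒪) x) (hl : LevLe l x)
    (s : A.Bas) : OrdGe (-((e * (l + 1) : ℕ) : ℤ)) (crd A c x s) := by
  have h1 := h4 n M b A (LaurentSeries 𝒪) c (pwS 𝒪) hn hM hu hc l x hx hl s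
  rw [mem_pwS] at h1
  have h2 : crd A c x s = Ring.inverse (dt A c) ^ (l + 1) *
      (dt A c ^ (l + 1) * crd A c x s) := by
    rw [← mul_assoc, ← mul_pow, Ring.inverse_mul_cancel _ hu, one_pow, one_mul]
  rw [h2]
  refine H18.ordGe_mono ?_ (H18.ordGe_mul_gen (ordGe_pow he (l + 1)) h1)
  push_cast
  linarith

theorem pol (hJ : JConeStmt) (hG : GamStmt) (h4 : Hb4Stmt) (hP : PcoStmt) (hD : DleStmt) :
    PolStmt := by
  intro n M p b A _ 𝒪 _ z φ c Dl N e hn hM hp hN hB hz hDl hu hc hi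
  have hp0 : 0 < p := by omega
  set f := phT p φ with hf
  have hS : SubB p z f (tht 𝒪) c (pwS 𝒪) :=
    { cS := hc
      zS := hz
      sat := by
        intro x hx i hi
        have h1 := hx i hi
        rw [natCast_mul_coeff] at h1
        exact tf_coeff hB.tf _ h1
      fS := by
        intro x hx
        have := ordGe_phT hp0 φ (mem_pwS.1 hx)
        rwa [mul_zero] at this
      dS := fun x hx => H18.ordGe_tht hx }
  have hfc : ∀ β, OrdGe 0 (f (c β)) := fun β => hS.fS _ (hc β)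
  have hdt : dt A (fun β => f (c β)) = f (dt A c) := dt_map A f c
  have hu' : IsUnit (dt A (fun β => f (c β))) := by rw [hdt]; exact hu.map f
  have hi' : OrdGe (-((p * e : ℕ) : ℤ)) (Ring.inverse (dt A (fun β => f (c β)))) := by
    have h1 : Ring.inverse (dt A (fun β => f (c β))) = f (Ring.inverse (dt A c)) := by
      rw [hdt]
      obtain ⟨v, hv⟩ := hu
      rw [← hv]
      have : f (v : LaurentSeries 𝒪) = ((Units.map (f : LaurentSeries 𝒪 →* LaurentSeries 𝒪) v :
        (LaurentSeries 𝒪)ˣ) : LaurentSeries 𝒪) := rfl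
      rw [this, Ring.inverse_unit, Ring.inverse_unit]
      rfl
    rw [h1]
    refine H18.ordGe_mono ?_ (ordGe_phT hp0 φ hi)
    push_cast
    linarith
  obtain ⟨hDS, hPS⟩ := hP n M p b (LaurentSeries 𝒪) z f (tht 𝒪) c Dl (2 * N) (n + 1) (pwS 𝒪)
    hB hDl hS
  obtain ⟨hDc, hDlev⟩ := (hD n M p (LaurentSeries 𝒪) z f (tht 𝒪) c hB).2 Dl hDl
  have hmm : mm p (n + 1) ≤ n + 1 := by
    unfold mm
    rw [Nat.div_le_iff_le_mul_add_pred hp0]
    have : n + 1 ≤ p * (n + 1) := Nat.le_mul_of_pos_left _ hp0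
    omega
  have hlb : ∀ s : A.Bas, s.1 0 ≤ n + 1 := by
    intro s
    have := H10.bas_lev_le A s
    unfold Lb at this
    split_ifs at this <;> omega
  have hbb : ∀ (c' : Grid n M → LaurentSeries 𝒪) (s : A.Bas), LevLe (n + 1) (bb A c' s.1) :=
    fun c' s => (H10.isCone_bb hJ A hn hM c' s).2.levLe (hlb s)
  -- `P`
  have hPm : ∀ s' s, OrdGe (-((p * e * (n + 1 + 2 * N + 1) : ℕ) : ℤ)) (Pm A p z N f c Dl s' s) := by
    intro s' s
    obtain ⟨h1, h2, h3⟩ := hPS (bb A c s.1) (H10.isCone_bb hJ A hn hM c s).1 (hbb c s)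
      (coefIn_bb A hc s.1)
    exact crd_ord h4 A hn hM hu' hfc hi' h3 (h2.mono fun t ht => by omega) s'
  -- `Θ`
  have hTh : ∀ s' s, OrdGe (-((e * (p * (n + 1) + 1) : ℕ) : ℤ)) (Thm A p f c s' s) := by
    intro s' s
    have h1 : OrdGe 0 (Ring.inverse ((uu p (s.1 0) : ℕ) : LaurentSeries 𝒪)) := by
      have h2 : IsUnit ((uu p (s.1 0) : ℕ) : ℤ_[p]) :=
        H10.isUnit_uu hG p hp (RingHom.id _) (s.1 0)
      obtain ⟨v, hv⟩ := h2
      have h3 : ((uu p (s.1 0) : ℕ) : LaurentSeries 𝒪) =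
          ((Units.map (z : ℤ_[p] →* LaurentSeries 𝒪) v : (LaurentSeries 𝒪)ˣ) :
            LaurentSeries 𝒪) := by
        rw [← map_natCast z, ← hv]
        rfl
      rw [h3, Ring.inverse_unit, ← map_inv]
      exact hz _
    have h2 : OrdGe (-((e * (p * (n + 1) + 1) : ℕ) : ℤ))
        (crd A c (expand p (bb A (fun β => f (c β)) s.1)) s') := by
      refine crd_ord h4 A hn hM hu hc hi (coefIn_expand (coefIn_bb A hfc s.1)) ?_ s'
      exact (hasLev_expand (H10.isCone_bb hJ A hn hM _ s).2).levLe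
        (Nat.mul_le_mul_left _ (hlb s))
    have h3 := H18.ordGe_mul_gen h1 h2
    rw [zero_add] at h3
    exact h3
  -- `E`
  have hEm : ∀ s' s, OrdGe (-((p * e * (2 * N + (n + 1) + 1) : ℕ) : ℤ))
      (Em A p z N f c Dl s' s) := by
    intro s' s
    have hTS : CoefIn (pwS 𝒪) (TJ p z (2 * N) Dl) :=
      CoefIn.sum _ _ fun j _ => CoefIn.C_mul (CoefIn.pow hDS j) (hz _)
    have hTl : LevLe (p * (2 * N)) (TJ p z (2 * N) Dl) := by
      refine Supp.sum _ _ fun j hj => Supp.C_mul _ ?_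
      refine (hDlev.pow j).levLe ?_
      have := Finset.mem_range.1 hj
      rw [mul_comm]
      exact Nat.mul_le_mul_left _ (by omega)
    refine crd_ord h4 A hn hM hu' hfc hi'
      (CoefIn.mul (CoefIn.psi hp0 hTS) (coefIn_bb A hfc s.1)) ?_ s'
    have h1 : LevLe (2 * N) (psi p (TJ p z (2 * N) Dl)) := by
      refine Supp.psi hp0 ?_ hTl
      intro t ht
      simp only [Finsupp.smul_apply, smul_eq_mul] at ht
      exact Nat.le_of_mul_le_mul_left ht hp0
    refine Supp.mul ?_ h1 (hbb (fun β => f (c β)) s)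
    intro t t' h h'
    rw [Finsupp.add_apply]
    exact Nat.add_le_add h h'
  -- powers of `1 - E`
  have hone : ∀ s' s, OrdGe 0 ((1 : Matrix A.Bas A.Bas (LaurentSeries 𝒪)) s' s) := by
    intro s' s
    rw [Matrix.one_apply]
    split_ifs
    · exact H18.ordGe_one
    · exact H18.ordGe_zero
  have hEk : ∀ (i : ℕ) s' s, OrdGe (-((i * (p * e * (2 * N + (n + 1) + 1)) : ℕ) : ℤ))
      (((1 - Em A p z N f c Dl) ^ i) s' s) := by
    intro i
    induction i with
    | zero =>
      intro s' s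
      rw [pow_zero]
      simpa using hone s' s
    | succ i ih =>
      intro s' s
      rw [pow_succ, Matrix.mul_apply]
      refine H18.ordGe_sum _ _ _ fun t _ => ?_
      have h1 : OrdGe (-((p * e * (2 * N + (n + 1) + 1) : ℕ) : ℤ))
          ((1 - Em A p z N f c Dl) t s) := by
        rw [Matrix.sub_apply]
        exact H18.ordGe_sub (H18.ordGe_mono (by omega) (hone t s)) (hEm t s)
      refine H18.ordGe_mono ?_ (H18.ordGe_mul_gen (ih s' t) h1)
      push_cast
      linarith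
  have hsum : ∀ s' s, OrdGe (-((N * (p * e * (2 * N + (n + 1) + 1)) : ℕ) : ℤ))
      ((∑ i ∈ Finset.range N, (1 - Em A p z N f c Dl) ^ i) s' s) := by
    intro s' s
    rw [Matrix.sum_apply]
    refine H18.ordGe_sum _ _ _ fun i hi => ?_
    refine H18.ordGe_mono ?_ (hEk i s' s)
    have h1 : i ≤ N := (Finset.mem_range.1 hi).le
    have h2 : i * (p * e * (2 * N + (n + 1) + 1)) ≤ N * (p * e * (2 * N + (n + 1) + 1)) :=
      Nat.mul_le_mul_right _ h1
    omega
  have hFm : ∀ s' s, OrdGe (-((e * (p * (n + 1) + 1) +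
      N * (p * e * (2 * N + (n + 1) + 1)) : ℕ) : ℤ)) (Fm A p z N f c Dl s' s) := by
    intro s' s
    unfold Fm
    rw [Matrix.mul_apply]
    refine H18.ordGe_sum _ _ _ fun t _ => ?_
    rw [Matrix.mul_diagonal]
    have h1 : OrdGe 0 ((p : LaurentSeries 𝒪) ^ (Lb n b - t.1 0)) := by
      rw [← Nat.cast_pow]
      exact H18.ordGe_natCast _
    have h2 := H18.ordGe_mul_gen (H18.ordGe_mul_gen (hTh s' t) h1) (hsum t s)
    refine H18.ordGe_mono ?_ h2
    push_cast
    linarith
  constructor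
  · intro s' s
    refine H18.ordGe_mono ?_ (hPm s' s)
    have h1 : p * e * (n + 1 + 2 * N + 1) ≤ p * polB n e N := by
      unfold polB
      rw [mul_assoc]
      refine Nat.mul_le_mul_left _ (Nat.mul_le_mul_left _ ?_)
      nlinarith
    omega
  · intro s' s
    refine H18.ordGe_mono ?_ (hFm s' s)
    have h1 : e * (p * (n + 1) + 1) + N * (p * e * (2 * N + (n + 1) + 1)) ≤
        p * polB n e N := by
      unfold polB
      have h2 : e * (p * (n + 1) + 1) ≤ p * (e * (n + 2)) := by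
        have : p * (n + 1) + 1 ≤ p * (n + 2) := by nlinarith
        calc e * (p * (n + 1) + 1) ≤ e * (p * (n + 2)) := Nat.mul_le_mul_left _ this
          _ = p * (e * (n + 2)) := by ring
      have h3 : N * (p * e * (2 * N + (n + 1) + 1)) ≤ p * (e * ((N + 1) * (2 * N + n + 2))) := by
        calc N * (p * e * (2 * N + (n + 1) + 1)) = p * (e * (N * (2 * N + n + 2))) := by ring
          _ ≤ p * (e * ((N + 1) * (2 * N + n + 2))) := by
            refine Nat.mul_le_mul_left _ (Nat.mul_le_mul_left _ (Nat.mul_le_mul_right _ ?_))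
            omega
      calc _ ≤ p * (e * (n + 2)) + p * (e * ((N + 1) * (2 * N + n + 2))) := Nat.add_le_add h2 h3
        _ = p * (e * (n + 2 + (N + 1) * (2 * N + n + 2))) := by ring
    omega

end Pool.Agent.Helper95_CM.H51P
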