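import Pool.Agent.Helper51_CM.Basic

/-!
# CM project, module PSO: the commutation relations of the Frobenius operator `Psi`
-/

set_option autoImplicit false
set_option linter.unusedSectionVars false

noncomputable section

namespace Pool.Agent.Helper95_CM.H51

open MvPolynomial

section dop
variable {n : ℕ} {R : Type} [CommRing R] (p : ℕ) [Fact p.Prime] (z : ℤ_[p] →+* R)

/-- the common properties of `th i` and `cder d` -/
structure DOp (S : Subring R) (κ : R) (δ : PP n R →+ PP n R) : Prop where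
  leib : ∀ x y, δ (x * y) = δ x * y + x * δ y
  zc : ∀ a, δ (C (z a)) = 0
  supp : ∀ (P : Expo n → Prop) (x : PP n R), Supp P x → Supp P (δ x)
  ps : ∀ y, psi p (δ y) = C κ * δ (psi p y)
  ex : ∀ g, δ (expand p g) = C κ * expand p (δ g)
  cs : ∀ x, CS S x → CS S (δ x)

variable {p z}
variable {S : Subring R} {κ : R} {δ : PP n R →+ PP n R} (hδ : DOp p z S κ δ)

include hδ

lemma DOp.one : δ 1 = 0 := by
  have h := hδ.leib 1 1
  rw [mul_one, mul_one, one_mul] at h
  exact left_eq_add.1 h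

lemma DOp.nat (k : ℕ) : δ (k : PP n R) = 0 := by
  have : (k : PP n R) = k • (1 : PP n R) := by simp
  rw [this, map_nsmul, hδ.one, smul_zero]

lemma DOp.nat_mul (k : ℕ) (x : PP n R) : δ ((k : PP n R) * x) = (k : PP n R) * δ x := by
  rw [hδ.leib, hδ.nat, zero_mul, zero_add]

lemma DOp.z_mul (a : ℤ_[p]) (x : PP n R) : δ (C (z a) * x) = C (z a) * δ x := by
  rw [hδ.leib, hδ.zc, zero_mul, zero_add]

lemma DOp.pow (x : PP n R) (k : ℕ) : δ (x ^ (k + 1)) = ((k + 1 : ℕ) : PP n R) * x ^ k * δ x := by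
  induction k with
  | zero => simp
  | succ k ih =>
    rw [pow_succ, hδ.leib, ih]
    push_cast
    ring

lemma DOp.tjd (hE : EeStmt) (hp : 3 ≤ p) (J : ℕ) (Dl : PP n R) :
    δ (TJ p z (J + 1) Dl) = -((p : PP n R) * TJ p z J Dl * δ Dl) := by
  obtain ⟨-, -, h3, -, -⟩ := hE p hp
  induction J with
  | zero =>
    have : TJ p z (0 + 1) Dl = C (z (ee p 0)) := by
      unfold TJ
      simp
    have h0 : TJ p z 0 Dl = (0 : PP n R) := by
      unfold TJ
      simp
    rw [this, hδ.zc, h0, mul_zero, zero_mul, neg_zero]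
  | succ J ih =>
    rw [TJ_succ, map_add, ih, hδ.z_mul, hδ.pow]
    have e1 : (C (z (ee p (J + 1))) : PP n R) * ((J + 1 : ℕ) : PP n R) =
        -((p : PP n R) * C (z (ee p J))) := by
      have h := congrArg (fun a => (C (z a) : PP n R)) (h3 J)
      simp only [map_mul, map_add, map_neg, map_natCast, map_one] at h
      push_cast
      rw [mul_comm, h]
      ring
    rw [TJ_succ p z J]
    calc _ = -((p : PP n R) * TJ p z J Dl * δ Dl) +
          (C (z (ee p (J + 1))) * ((J + 1 : ℕ) : PP n R)) * Dl ^ J * δ Dl := by ring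
      _ = _ := by rw [e1]; ring

/-- (b) and (c) of the plan -/
lemma DOp.key (hE : EeStmt) (hp : 3 ≤ p) (J : ℕ) (F F' Dl y : PP n R)
    (hF : F ^ p = expand p F' + C (p : R) * Dl) :
    psi p (TJ p z (J + 1) Dl * (δ y - δ (F ^ p) * y)) =
      C κ * (δ (psi p (TJ p z (J + 1) Dl * y)) -
        δ F' * psi p (TJ p z (J + 1) Dl * y)) -
      C (z (p * ee p J)) * psi p (Dl ^ J * δ Dl * y) := by
  have hp0 : 0 < p := by omega
  have hT := hδ.tjd hE hp J Dl
  have hTs := TJ_succ p z J Dl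
  set T := TJ p z (J + 1) Dl with hTdef
  set T0 := TJ p z J Dl with hT0def
  have hCp : (C (p : R) : PP n R) = (p : PP n R) := map_natCast C p
  have h1 : T * (δ y - δ (F ^ p) * y) =
      δ (T * y) - expand p (C κ * δ F') * (T * y) - C (z (p * ee p J)) * (Dl ^ J * δ Dl * y) := by
    rw [hF, map_add, hCp, hδ.nat_mul, hδ.ex, hδ.leib, hT, map_mul (expand p), expand_C,
      map_mul z, map_mul C, map_natCast, map_natCast]
    have h2 : T * δ Dl * y = T0 * δ Dl * y + C (z (ee p J)) * Dl ^ J * δ Dl * y := by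
      rw [hTs]; ring
    linear_combination (-(p : PP n R)) * h2
  rw [h1, psi_sub hp0, psi_sub hp0, hδ.ps, psi_expand_mul hp0, psi_C_mul hp0]
  ring

/-- (a) of the plan: the computation of `V` -/
lemma DOp.VVc (hG : GamStmt) (hp : 3 ≤ p) (l : ℕ) (F x : PP n R) (hF : HasLev 1 F)
    (hx : HasLev l x) :
    VV p F (δ x - δ F * x) = (gam p l : PP n R) *
      ((δ (x * F ^ (p * mm p l - l)) - δ (F ^ p) * (x * F ^ (p * mm p l - l))) -
        (if p ∣ l then 0 else
          th 0 (x * F ^ (p * mm p l - l - 1) * δ F) -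
            th 0 (F ^ p) * (x * F ^ (p * mm p l - l - 1) * δ F))) := by
  have hpp : p.Prime := Fact.out
  obtain ⟨-, -, -, g1, g2, -, g4, -⟩ := hG p hpp hp
  have hx1 : HasLev l (δ x) := hδ.supp _ x hx
  have hF1 : HasLev 1 (δ F) := hδ.supp _ F hF
  have hx2 : HasLev (l + 1) (δ F * x) := by
    have := hasLev_mul hF1 hx
    rwa [Nat.add_comm] at this
  obtain ⟨q, hq⟩ : ∃ q, p = q + 1 := ⟨p - 1, by omega⟩
  have hFp : δ (F ^ p) = (p : PP n R) * F ^ (p - 1) * δ F := by
    have h := hδ.pow F (p - 1)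
    rwa [show p - 1 + 1 = p by omega] at h
  have hFF : F ^ p = F ^ (p - 1) * F := by
    rw [← pow_succ, show p - 1 + 1 = p by omega]
  rw [VV_sub, VV_hom p F hx1, VV_hom p F hx2, map_natCast, map_natCast]
  by_cases hl : p ∣ l
  · obtain ⟨m, rfl⟩ := hl
    obtain ⟨h1, h2, h3⟩ := g2 m
    rw [if_pos (dvd_mul_right p m), h1, h2, h3, sub_zero, hFp]
    have e1 : p * m - p * m = 0 := Nat.sub_self _
    have e2 : p * (m + 1) - (p * m + 1) = p - 1 := by
      rw [Nat.mul_add, Nat.mul_one]; omega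
    rw [e1, e2, pow_zero, mul_one, mul_one]
    push_cast
    ring
  · have hl1 : 1 ≤ l := by
      rcases Nat.eq_zero_or_pos l with h | h
      · rw [h] at hl; exact absurd (dvd_zero p) hl
      · exact h
    obtain ⟨h1, h2, h3⟩ := g1 l hl1 hl
    rw [if_neg hl, h1, h2]
    obtain ⟨k, hk⟩ : ∃ k, p * mm p l = k + 1 + l := ⟨p * mm p l - l - 1, by omega⟩
    have e1 : p * mm p l - l = k + 1 := by omega
    have e2 : p * mm p l - l - 1 = k := by omega
    have e3 : p * mm p l - (l + 1) = k := by omega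
    rw [e2, e1, e3]
    have hρ : HasLev (k + 1 + l) (x * F ^ k * δ F) := by
      have := hasLev_mul (hasLev_mul hx (hasLev_pow hF k)) hF1
      have e : l + 1 * k + 1 = k + 1 + l := by omega
      rwa [e] at this
    have hFpl : HasLev p (F ^ p) := by
      have := hasLev_pow hF p
      rwa [one_mul] at this
    rw [th_hasLev hρ, th_hasLev hFpl, map_natCast, map_natCast, hδ.leib, hδ.pow, hFp]
    push_cast
    rw [hFF]
    ring

end dop

section main
variable {n M : ℕ} {b : Bool} {R : Type} [CommRing R] {p : ℕ} [Fact p.Prime]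
  {z : ℤ_[p] →+* R}

lemma Dop_C_mul (c : Grid n M → R) (i : Fin (n + 1)) (a : R) (x : PP n R) :
    Dop c i (C a * x) = C a * Dop c i x := by
  rw [← smul_eq_C_mul, map_smul, smul_eq_C_mul]

lemma Psi_add (J : ℕ) (F Dl x y : PP n R) :
    Psi p z J F Dl (x + y) = Psi p z J F Dl x + Psi p z J F Dl y := by
  have hp0 : 0 < p := (Fact.out : p.Prime).pos
  unfold Psi
  rw [VV_add, mul_add, psi_add hp0]

/-- `Psi` as an additive map -/
def PsiA (p : ℕ) [Fact p.Prime] (z : ℤ_[p] →+* R) (J : ℕ) (F Dl : PP n R) :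
    PP n R →+ PP n R where
  toFun := Psi p z J F Dl
  map_zero' := by
    unfold Psi
    rw [VV_zero, mul_zero, psi_zero (Fact.out : p.Prime).pos]
  map_add' := Psi_add J F Dl

lemma PsiA_apply (J : ℕ) (F Dl x : PP n R) : PsiA p z J F Dl x = Psi p z J F Dl x := rfl

lemma psi_natMul {p : ℕ} (hp : 0 < p) (k : ℕ) (x : PP n R) :
    psi p ((k : PP n R) * x) = (k : PP n R) * psi p x := by
  rw [← map_natCast (C : R →+* PP n R) k, psi_C_mul hp]

lemma dop_th (hp0 : 0 < p) (S : Subring R) (i : Fin (n + 1)) :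
    DOp (n := n) p z S (p : R)
      (th i : Derivation R (PP n R) (PP n R)).toLinearMap.toAddMonoidHom := by
  refine ⟨?_, ?_, ?_, ?_, ?_, ?_⟩
  · intro x y
    change th i (x * y) = th i x * y + x * th i y
    rw [Derivation.leibniz, smul_eq_mul, smul_eq_mul]
    ring
  · intro a
    exact (th (n := n) (R := R) i).map_algebraMap (z a)
  · intro P x hx; exact supp_th i hx
  · intro y; exact th_psi hp0 i y
  · intro g; exact th_expand p i g
  · intro x hx; exact cs_th i hx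

lemma dop_cder (hp0 : 0 < p) (S : Subring R) (d : R →+ R) (hd : IsDer d)
    (hz : ∀ a, d (z a) = 0) (hS : ∀ x ∈ S, d x ∈ S) :
    DOp (n := n) p z S 1 (cderA d) := by
  refine ⟨?_, ?_, ?_, ?_, ?_, ?_⟩
  · intro x y; exact cder_mul d hd x y
  · intro a
    change cder d (monomial 0 (z a)) = 0
    rw [cder_monomial, hz, monomial_zero]
  · intro P x hx; exact supp_cder d hx
  · intro y
    rw [C_1, one_mul]
    exact cder_psi d hp0 y
  · intro g
    rw [C_1, one_mul]
    exact cder_expand d p g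
  · intro x hx; exact cs_cder d hS hx

/-- The main computation on homogeneous elements. -/
lemma main_hom (hE : EeStmt) (hG : GamStmt) (hp : 3 ≤ p) (J l : ℕ) {S : Subring R} {κ : R}
    {δ : PP n R →+ PP n R} (hδ : DOp p z S κ δ) (hzS : ∀ a, z a ∈ S)
    (c c' : Grid n M → R) (hc : ∀ β, c β ∈ S)
    (Dl x : PP n R) (hF : Fp c ^ p = expand p (Fp c') + C (p : R) * Dl)
    (hDc : IsCone M false Dl) (hDl : HasLev p Dl) (hDS : CS S Dl)
    (hxl : HasLev l x) (hxc : IsCone M b x) (hxS : CS S x) :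
    ∃ τ ρ : PP n R, IsCone M b τ ∧ CS S τ ∧ IsCone M b ρ ∧ CS S ρ ∧
      HasLev (J + 1 + mm p l) ρ ∧
      Psi p z (J + 1) (Fp c) Dl (δ x - δ (Fp c) * x) =
        C κ * (δ (Psi p z (J + 1) (Fp c) Dl x) - δ (Fp c') * Psi p z (J + 1) (Fp c) Dl x) +
        Dop c' 0 τ + C (z (p * ee p J)) * ρ := by
  have hpp : p.Prime := Fact.out
  have hp0 : 0 < p := hpp.pos
  obtain ⟨-, -, -, g1, g2, -, g4, -⟩ := hG p hpp hp
  have hth := dop_th (n := n) (R := R) (z := z) hp0 S 0
  set m := mm p l with hm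
  have hlm : l ≤ p * m := g4 l
  set F := Fp c with hFdef
  have hFl : HasLev 1 F := hasLev_Fp c
  have hFc : IsCone M false F := isCone_Fp c
  have hFS : CS S F := cs_Fp hc
  set τ0 := x * F ^ (p * m - l) with hτ0
  have hτ0l : HasLev (p * m) τ0 := by
    have := hasLev_mul hxl (hasLev_pow hFl (p * m - l))
    have e : l + 1 * (p * m - l) = p * m := by omega
    rwa [e] at this
  have hτ0c : IsCone M b τ0 := isCone_mul' hxc (isCone_pow hFc _)
  have hτ0S : CS S τ0 := cs_mul hxS (cs_pow hFS _)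
  set T := TJ p z (J + 1) Dl with hT
  have hTc : IsCone M false T := isCone_TJ p z (J + 1) hDc
  have hTS : CS S T := cs_TJ p z hzS (J + 1) hDS
  have hδF : HasLev 1 (δ F) := hδ.supp _ _ hFl
  have hδFc : IsCone M false (δ F) := hδ.supp _ _ hFc
  -- Psi x
  have hPx : Psi p z (J + 1) F Dl x = (gam p l : PP n R) * psi p (T * τ0) := by
    unfold Psi
    rw [VV_hom p F hxl, ← psi_natMul hp0]
    congr 1
    rw [map_natCast, ← hT, hτ0]
    ring
  have hD1 : ∀ k, HasLev (p * k) (Dl ^ k) := fun k => hasLev_pow hDl k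
  have hlev : ∀ (u w : PP n R), HasLev p u → HasLev (p * m) w →
      HasLev (J + 1 + m) (psi p (Dl ^ J * u * w)) := by
    intro u w hu hw
    apply hasLev_psi hp0
    have h := hasLev_mul (hasLev_mul (hD1 J) hu) hw
    have e : p * J + p + p * m = p * (J + 1 + m) := by ring
    rwa [e] at h
  have k1 := hδ.key hE hp J F (Fp c') Dl τ0 hF
  have c1 : IsCone M b (psi p (Dl ^ J * δ Dl * τ0)) :=
    isCone_psi hp0 (isCone_mul (isCone_mul (isCone_pow hDc J) (hδ.supp _ _ hDc)) hτ0c)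
  have s1 : CS S (psi p (Dl ^ J * δ Dl * τ0)) :=
    cs_psi hp0 (cs_mul (cs_mul (cs_pow hDS J) (hδ.cs _ hDS)) hτ0S)
  have l1 := hlev (δ Dl) τ0 (hδ.supp _ _ hDl) hτ0l
  by_cases hl : p ∣ l
  · refine ⟨0, -((gam p l : PP n R) * psi p (Dl ^ J * δ Dl * τ0)), supp_zero _, cs_zero,
      ?_, ?_, ?_, ?_⟩
    · rw [← map_natCast (C : R →+* PP n R)]
      exact supp_neg (supp_C_mul _ c1)
    · rw [← map_natCast (C : R →+* PP n R)]
      exact cs_neg (cs_mul (cs_C (natCast_mem S _)) s1)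
    · rw [← map_natCast (C : R →+* PP n R)]
      exact supp_neg (supp_C_mul _ l1)
    · rw [map_zero, add_zero, hPx, hδ.nat_mul]
      have e : Psi p z (J + 1) F Dl (δ x - δ F * x) =
          (gam p l : PP n R) * psi p (T * (δ τ0 - δ (F ^ p) * τ0)) := by
        unfold Psi
        rw [hδ.VVc hG hp l F x hFl hxl, if_pos hl, sub_zero, ← psi_natMul hp0]
        congr 1
        ring
      rw [e, k1]
      ring
  · have hl1 : 1 ≤ l := by
      rcases Nat.eq_zero_or_pos l with h | h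
      · rw [h] at hl; exact absurd (dvd_zero p) hl
      · exact h
    obtain ⟨h1, h2, h3⟩ := g1 l hl1 hl
    rw [← hm] at h3
    set ρ0 := x * F ^ (p * m - l - 1) * δ F with hρ0
    have hρ0l : HasLev (p * m) ρ0 := by
      have := hasLev_mul (hasLev_mul hxl (hasLev_pow hFl (p * m - l - 1))) hδF
      have e : l + 1 * (p * m - l - 1) + 1 = p * m := by omega
      rwa [e] at this
    have hρ0c : IsCone M b ρ0 := isCone_mul' (isCone_mul' hxc (isCone_pow hFc _)) hδFc
    have hρ0S : CS S ρ0 := cs_mul (cs_mul hxS (cs_pow hFS _)) (hδ.cs _ hFS)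
    have k2 := hth.key hE hp J F (Fp c') Dl ρ0 hF
    have c2 : IsCone M b (psi p (Dl ^ J * th 0 Dl * ρ0)) :=
      isCone_psi hp0 (isCone_mul (isCone_mul (isCone_pow hDc J) (supp_th 0 hDc)) hρ0c)
    have s2 : CS S (psi p (Dl ^ J * th 0 Dl * ρ0)) :=
      cs_psi hp0 (cs_mul (cs_mul (cs_pow hDS J) (cs_th 0 hDS)) hρ0S)
    have l2 := hlev (th 0 Dl) ρ0 (supp_th 0 hDl) hρ0l
    refine ⟨C (-((p : R) * (gam p l : R))) * psi p (T * ρ0),
      (gam p l : PP n R) * psi p (Dl ^ J * th 0 Dl * ρ0) -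
        (gam p l : PP n R) * psi p (Dl ^ J * δ Dl * τ0),
      supp_C_mul _ (isCone_psi hp0 (isCone_mul hTc hρ0c)),
      cs_mul (cs_C (S.neg_mem (S.mul_mem (natCast_mem S _) (natCast_mem S _))))
        (cs_psi hp0 (cs_mul hTS hρ0S)), ?_, ?_, ?_, ?_⟩
    · rw [← map_natCast (C : R →+* PP n R)]
      exact supp_sub (supp_C_mul _ c2) (supp_C_mul _ c1)
    · rw [← map_natCast (C : R →+* PP n R)]
      exact cs_sub (cs_mul (cs_C (natCast_mem S _)) s2) (cs_mul (cs_C (natCast_mem S _)) s1)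
    · rw [← map_natCast (C : R →+* PP n R)]
      exact supp_sub (supp_C_mul _ l2) (supp_C_mul _ l1)
    · rw [hPx, hδ.nat_mul, Dop_C_mul, Dop_apply]
      have e : Psi p z (J + 1) F Dl (δ x - δ F * x) =
          (gam p l : PP n R) * (psi p (T * (δ τ0 - δ (F ^ p) * τ0)) -
            psi p (T * (th 0 ρ0 - th 0 (F ^ p) * ρ0))) := by
        unfold Psi
        rw [hδ.VVc hG hp l F x hFl hxl, if_neg hl, ← psi_sub hp0, ← psi_natMul hp0]
        congr 1
        ring
      have k2' : psi p (T * (th 0 ρ0 - th 0 (F ^ p) * ρ0)) =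
          C (p : R) * (th 0 (psi p (T * ρ0)) - th 0 (Fp c') * psi p (T * ρ0)) -
            C (z (p * ee p J)) * psi p (Dl ^ J * th 0 Dl * ρ0) := k2
      rw [e, k1, k2']
      have e3 : Yp c' 0 = th 0 (Fp c') := rfl
      rw [e3]
      simp only [map_neg, map_mul, map_natCast]
      ring

/-- error terms -/
def Err (p : ℕ) [Fact p.Prime] (z : ℤ_[p] →+* R) (b : Bool) (c' : Grid n M → R) (S : Subring R)
    (J h : ℕ) (y : PP n R) : Prop :=
  ∃ (τ : Fin (n + 1) → PP n R) (ρ : PP n R),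
      (∀ j, IsCone M b (τ j) ∧ ∀ s, coeff s (τ j) ∈ S) ∧ IsCone M b ρ ∧
      (∀ s, coeff s ρ ∈ S) ∧ Supp (fun s => J ≤ s 0 ∧ s 0 ≤ J + h) ρ ∧
      y = (∑ j, Dop c' j (τ j)) + C (z (p * ee p (J - 1))) * ρ

lemma Err.add {c' : Grid n M → R} {S : Subring R} {J h : ℕ} {y y' : PP n R}
    (hy : Err p z b c' S J h y) (hy' : Err p z b c' S J h y') :
    Err p z b c' S J h (y + y') := by
  obtain ⟨τ, ρ, h1, h2, h3, h4, h5⟩ := hy
  obtain ⟨τ', ρ', h1', h2', h3', h4', h5'⟩ := hy'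
  refine ⟨fun j => τ j + τ' j, ρ + ρ', fun j => ⟨supp_add (h1 j).1 (h1' j).1,
    cs_add (h1 j).2 (h1' j).2⟩, supp_add h2 h2', cs_add h3 h3', supp_add h4 h4', ?_⟩
  rw [h5, h5']
  simp only [map_add, Finset.sum_add_distrib]
  ring

lemma Err.zero {c' : Grid n M → R} {S : Subring R} {J h : ℕ} :
    Err p z b c' S J h (0 : PP n R) := by
  refine ⟨fun _ => 0, 0, fun j => ⟨supp_zero _, cs_zero⟩, supp_zero _, cs_zero, supp_zero _, ?_⟩
  simp

lemma Err.sum {c' : Grid n M → R} {S : Subring R} {J h : ℕ} {ι : Type} (A : Finset ι)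
    (y : ι → PP n R) (hy : ∀ i ∈ A, Err p z b c' S J h (y i)) :
    Err p z b c' S J h (∑ i ∈ A, y i) := by
  classical
  induction A using Finset.induction_on with
  | empty => rw [Finset.sum_empty]; exact Err.zero
  | insert a A ha ih =>
    rw [Finset.sum_insert ha]
    exact (hy a (Finset.mem_insert_self a A)).add
      (ih fun i hi => hy i (Finset.mem_insert_of_mem hi))

lemma Err.dop {c' : Grid n M → R} {S : Subring R} {J h : ℕ} (i : Fin (n + 1)) {τ : PP n R}
    (h1 : IsCone M b τ) (h2 : CS S τ) : Err p z b c' S J h (Dop c' i τ) := by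
  classical
  refine ⟨fun j => if j = i then τ else 0, 0, fun j => ?_, supp_zero _, cs_zero, supp_zero _, ?_⟩
  · by_cases hj : j = i
    · simp only [hj, if_true]
      exact ⟨h1, h2⟩
    · simp only [hj, if_false]
      exact ⟨supp_zero _, cs_zero⟩
  · rw [mul_zero, add_zero, Finset.sum_eq_single i]
    · simp only [if_true]
    · intro j _ hj
      simp only [if_neg hj, map_zero]
    · intro hi
      exact absurd (Finset.mem_univ i) hi

lemma Err.rho {c' : Grid n M → R} {S : Subring R} {J h : ℕ} {ρ : PP n R}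
    (h1 : IsCone M b ρ) (h2 : CS S ρ) (h3 : Supp (fun s => J ≤ s 0 ∧ s 0 ≤ J + h) ρ) :
    Err p z b c' S J h (C (z (p * ee p (J - 1))) * ρ) := by
  refine ⟨fun _ => 0, ρ, fun j => ⟨supp_zero _, cs_zero⟩, h1, h2, h3, ?_⟩
  simp

lemma mm_mono (p : ℕ) {l l' : ℕ} (h : l ≤ l') : mm p l ≤ mm p l' := by
  unfold mm
  exact Nat.div_le_div_right (by omega)

lemma cs_Dl {S : Subring R} (c c' : Grid n M → R) (hc : ∀ β, c β ∈ S) (hc' : ∀ β, c' β ∈ S)
    (hsat : ∀ x, (p : R) * x ∈ S → x ∈ S) (Dl : PP n R)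
    (hF : Fp c ^ p = expand p (Fp c') + C (p : R) * Dl) : CS S Dl := by
  intro s
  apply hsat
  have h : C (p : R) * Dl = Fp c ^ p - expand p (Fp c') := by rw [hF]; ring
  rw [← coeff_C_mul, h]
  refine cs_sub (cs_pow (cs_Fp hc) _) ?_ s
  unfold Fp
  rw [map_sum]
  refine cs_sum _ _ fun β _ => ?_
  rw [expand_monomial]
  exact cs_monomial (hc' β)

/-- The general form of PSO -/
theorem pso_gen (hE : EeStmt) (hG : GamStmt) (hp : 3 ≤ p) (J l : ℕ) {S : Subring R} {κ : R}
    {δ : PP n R →+ PP n R} (hδ : DOp p z S κ δ) (hzS : ∀ a, z a ∈ S)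
    (c c' : Grid n M → R) (hc : ∀ β, c β ∈ S)
    (Dl x : PP n R) (hF : Fp c ^ p = expand p (Fp c') + C (p : R) * Dl)
    (hDc : IsCone M false Dl) (hDl : HasLev p Dl) (hDS : CS S Dl)
    (hxl : LevLe l x) (hxc : IsCone M b x) (hxS : CS S x) :
    Err p z b c' S (J + 1) (mm p l) (Psi p z (J + 1) (Fp c) Dl (δ x - δ (Fp c) * x) -
        C κ * (δ (Psi p z (J + 1) (Fp c) Dl x) - δ (Fp c') * Psi p z (J + 1) (Fp c) Dl x)) := by
  have hlin : ∀ x : PP n R, Psi p z (J + 1) (Fp c) Dl (δ x - δ (Fp c) * x) -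
        C κ * (δ (Psi p z (J + 1) (Fp c) Dl x) - δ (Fp c') * Psi p z (J + 1) (Fp c) Dl x) =
      ∑ s ∈ x.support, (Psi p z (J + 1) (Fp c) Dl (δ (monomial s (coeff s x)) -
        δ (Fp c) * monomial s (coeff s x)) -
        C κ * (δ (Psi p z (J + 1) (Fp c) Dl (monomial s (coeff s x))) -
          δ (Fp c') * Psi p z (J + 1) (Fp c) Dl (monomial s (coeff s x)))) := by
    intro x
    conv_lhs => rw [eq_sum_monomial x]
    simp only [← PsiA_apply]
    rw [Finset.mul_sum, map_sum, ← Finset.sum_sub_distrib, map_sum, map_sum, map_sum,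
      Finset.mul_sum, ← Finset.sum_sub_distrib, Finset.mul_sum, ← Finset.sum_sub_distrib]
  rw [hlin]
  refine Err.sum _ _ fun s hs => ?_
  have hs' : coeff s x ≠ 0 := mem_support_iff.1 hs
  have hmono : ∀ P : Expo n → Prop, P s → Supp P (monomial s (coeff s x) : PP n R) :=
    fun P h => supp_monomial s _ fun _ => h
  obtain ⟨τ, ρ, h1, h2, h3, h4, h5, h6⟩ := main_hom (b := b) hE hG hp J (s 0) hδ hzS c c' hc Dl
    (monomial s (coeff s x)) hF hDc hDl hDS (hmono _ rfl) (hmono _ (hxc s hs'))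
    (cs_monomial (hxS s))
  rw [h6]
  have e : ∀ A B D : PP n R, A + B + D - A = B + D := by intro A B D; ring
  rw [e]
  refine (Err.dop 0 h1 h2).add ?_
  have := Err.rho (p := p) (z := z) (c' := c') (J := J + 1) (h := mm p l) h3 h4 ?_
  · exact this
  · refine supp_mono (fun t ht => ?_) h5
    have hm := mm_mono p (hxl s hs')
    have ht' : t 0 = J + 1 + mm p (s 0) := ht
    omega

end main

/-- PSO -/
theorem pso (hE : EeStmt) (hG : GamStmt) (hD : DleStmt) : PsoStmt := by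
  intro n M p b _ R _ z f d c Dl J l S hn hM hp hJ hB hDl hS x hxc hxl hxS
  have hp0 : 0 < p := by omega
  obtain ⟨J, rfl⟩ : ∃ J', J = J' + 1 := ⟨J - 1, by omega⟩
  obtain ⟨hDc, hDlev⟩ := (hD n M p R z f d c hB).2 Dl hDl
  have hDS : CS S Dl := cs_Dl c _ hS.cS (fun β => hS.fS _ (hS.cS β)) hS.sat Dl hDl
  have hPc : IsCone M b (Psi p z (J + 1) (Fp c) Dl x) := by
    unfold Psi
    refine isCone_psi hp0 (isCone_mul (isCone_TJ p z _ hDc) ?_)
    unfold VV
    refine supp_sum _ _ fun s hs => isCone_mul' ?_ (isCone_pow (isCone_Fp c) _)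
    exact supp_monomial _ _ fun _ => hxc s (mem_support_iff.1 hs)
  have hPS : CS S (Psi p z (J + 1) (Fp c) Dl x) := by
    unfold Psi
    refine cs_psi hp0 (cs_mul (cs_TJ p z hS.zS _ hDS) ?_)
    unfold VV
    refine cs_sum _ _ fun s _ => cs_mul ?_ (cs_pow (cs_Fp hS.cS) _)
    exact cs_monomial (S.mul_mem (natCast_mem S _) (hxS s))
  constructor
  · intro i
    have h := pso_gen (b := b) hE hG hp J l (dop_th (n := n) (z := z) hp0 S i) hS.zS c
      (fun β => f (c β)) hS.cS Dl x hDl hDc hDlev hDS hxl hxc hxS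
    have h2 : Err p z b (fun β => f (c β)) S (J + 1) (mm p l)
        (Dop (fun β => f (c β)) i (C (p : R) * Psi p z (J + 1) (Fp c) Dl x)) :=
      Err.dop i (supp_C_mul _ hPc) (cs_mul (cs_C (natCast_mem S _)) hPS)
    have h3 := h.add h2
    rw [Dop_C_mul] at h3
    obtain ⟨τ, ρ, h4, h5, h6, h7, h8⟩ := h3
    refine ⟨τ, ρ, h4, h5, h6, h7, ?_⟩
    rw [← h8]
    exact (sub_add_cancel _ _).symm
  · have h := pso_gen (b := b) hE hG hp J l
      (dop_cder (n := n) (z := z) hp0 S d hB.der hB.derZ hS.dS) hS.zS c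
      (fun β => f (c β)) hS.cS Dl x hDl hDc hDlev hDS hxl hxc hxS
    obtain ⟨τ, ρ, h1, h2, h3, h4, h5⟩ := h
    refine ⟨τ, ρ, h1, h2, h3, h4, ?_⟩
    rw [C_1, one_mul, sub_eq_iff_eq_add] at h5
    have e : Psi p z (J + 1) (Fp c) Dl (nab d c x) = _ := h5
    rw [e]
    change _ = (cderA d (Psi p z (J + 1) (Fp c) Dl x) -
      cderA d (Fp fun β => f (c β)) * Psi p z (J + 1) (Fp c) Dl x) + _ + _
    ring

end Pool.Agent.Helper95_CM.H51
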