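import Pool.Agent.Helper95_CM.StK
import Pool.Agent.Helper51_CM.Grow

/-!
# CM project, module SHEAR: from integral exponents to a nilpotent residue
-/

set_option autoImplicit false
set_option linter.unusedSectionVars false

noncomputable section

namespace Pool.Agent.Helper95_CM.H51S

open Polynomial H51G

section detpart
variable {R : Type} [CommRing R] {I : Type} [Fintype I] [DecidableEq I]

lemma det_updateCol_single (A : Matrix I I R) (i : I) :
    (A.updateCol i (Pi.single i 1)).det = (A.updateRow i (Pi.single i 1)).det := by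
  rw [← Matrix.adjugate_apply, ← Matrix.cramer_apply, Matrix.cramer_eq_adjugate_mulVec,
    Matrix.mulVec_single_one]
  rfl

/-- if column `i` of `A` is `x e_i`, row `i` of `B` is `y e_i`, and `A`, `B` agree elsewhere -/
lemma det_pair (A B : Matrix I I R) (i0 : I) (x y : R)
    (hA : ∀ i, A i i0 = if i = i0 then x else 0)
    (hB : ∀ j, B i0 j = if j = i0 then y else 0)
    (hAB : ∀ i j, i ≠ i0 → j ≠ i0 → A i j = B i j) :
    ∃ r : R, A.det = x * r ∧ B.det = y * r := by
  refine ⟨(A.updateRow i0 (Pi.single i0 1)).det, ?_, ?_⟩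
  · have e : A = A.updateCol i0 (x • Pi.single i0 1) := by
      ext i j
      by_cases hj : j = i0
      · subst hj
        rw [Matrix.updateCol_self, hA, Pi.smul_apply, Pi.single_apply, smul_eq_mul]
        split_ifs <;> simp
      · rw [Matrix.updateCol_ne hj]
    conv_lhs => rw [e]
    rw [Matrix.det_updateCol_smul, det_updateCol_single]
  · have e : B = B.updateRow i0 (y • Pi.single i0 1) := by
      ext i j
      by_cases hi : i = i0
      · subst hi
        rw [Matrix.updateRow_self, hB, Pi.smul_apply, Pi.single_apply, smul_eq_mul]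
        split_ifs <;> simp
      · rw [Matrix.updateRow_ne hi]
    conv_lhs => rw [e]
    rw [Matrix.det_updateRow_smul, ← det_updateCol_single]
    congr 2
    ext i j
    by_cases hi : i = i0
    · subst hi
      rw [Matrix.updateRow_self]
      by_cases hj : j = i
      · subst hj
        rw [Matrix.updateCol_self]
      · rw [Matrix.updateCol_ne hj, hB, if_neg hj, Pi.single_apply, if_neg hj]
    · rw [Matrix.updateRow_ne hi]
      by_cases hj : j = i0
      · subst hj
        rw [Matrix.updateCol_self, hA, if_neg hi, Pi.single_apply, if_neg hi]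
      · rw [Matrix.updateCol_ne hj, hAB i j hi hj]

lemma charpoly_pair (M N : Matrix I I R) (i0 : I) (a b : R)
    (hM : ∀ i, M i i0 = if i = i0 then a else 0)
    (hN : ∀ j, N i0 j = if j = i0 then b else 0)
    (hMN : ∀ i j, i ≠ i0 → j ≠ i0 → M i j = N i j) :
    ∃ r : R[X], M.charpoly = (X - C a) * r ∧ N.charpoly = (X - C b) * r := by
  refine det_pair M.charmatrix N.charmatrix i0 _ _ ?_ ?_ ?_
  · intro i
    by_cases hi : i = i0
    · subst hi
      rw [if_pos rfl, Matrix.charmatrix_apply_eq, hM, if_pos rfl]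
    · rw [if_neg hi, Matrix.charmatrix_apply_ne _ _ _ hi, hM, if_neg hi, C_0, neg_zero]
  · intro j
    by_cases hj : j = i0
    · subst hj
      rw [if_pos rfl, Matrix.charmatrix_apply_eq, hN, if_pos rfl]
    · rw [if_neg hj, Matrix.charmatrix_apply_ne _ _ _ (Ne.symm hj), hN, if_neg hj, C_0, neg_zero]
  · intro i j hi hj
    by_cases hij : i = j
    · subst hij
      rw [Matrix.charmatrix_apply_eq, Matrix.charmatrix_apply_eq, hMN i i hi hj]
    · rw [Matrix.charmatrix_apply_ne _ _ _ hij, Matrix.charmatrix_apply_ne _ _ _ hij,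
        hMN i j hi hj]

end detpart

section gauge
variable {𝒪 : Type} [CommRing 𝒪] {I : Type} [Fintype I] [DecidableEq I]

lemma mat_tht_mul (A B : Matrix I I (LaurentSeries 𝒪)) :
    (A * B).map (tht 𝒪) = A.map (tht 𝒪) * B + A * B.map (tht 𝒪) := by
  refine Matrix.ext fun i j => ?_
  rw [Matrix.map_apply, Matrix.mul_apply, Matrix.add_apply, Matrix.mul_apply, Matrix.mul_apply,
    map_sum (tht 𝒪), ← Finset.sum_add_distrib]
  refine Finset.sum_congr rfl fun k _ => ?_
  rw [tht_mul, Matrix.map_apply, Matrix.map_apply]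

lemma Gauge_trans {U Ui V Vi Q Q' Q'' : Matrix I I (LaurentSeries 𝒪)}
    (h1 : Gauge (tht 𝒪) U Ui Q Q') (h2 : Gauge (tht 𝒪) V Vi Q' Q'') :
    Gauge (tht 𝒪) (U * V) (Vi * Ui) Q Q'' := by
  refine ⟨?_, ?_, ?_⟩
  · rw [Matrix.mul_assoc, ← Matrix.mul_assoc V, h2.inv, Matrix.one_mul, h1.inv]
  · rw [Matrix.mul_assoc, ← Matrix.mul_assoc Ui, h1.inv', Matrix.one_mul, h2.inv']
  · rw [mat_tht_mul]
    calc U.map (tht 𝒪) * V + U * V.map (tht 𝒪) + Q * (U * V)
        = (U.map (tht 𝒪) + Q * U) * V + U * V.map (tht 𝒪) := by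
          rw [Matrix.add_mul, Matrix.mul_assoc Q]; abel
      _ = U * (V.map (tht 𝒪) + Q' * V) := by
          rw [h1.eq, Matrix.mul_add, Matrix.mul_assoc U Q' V]; abel
      _ = U * V * Q'' := by rw [h2.eq, Matrix.mul_assoc]

lemma Gauge_refl (Q : Matrix I I (LaurentSeries 𝒪)) : Gauge (tht 𝒪) 1 1 Q Q := by
  refine ⟨Matrix.one_mul 1, Matrix.one_mul 1, ?_⟩
  have : (1 : Matrix I I (LaurentSeries 𝒪)).map (tht 𝒪) = 0 := by
    ext i j
    rw [Matrix.map_apply, Matrix.one_apply]
    split_ifs
    · have := tht_nat (𝒪 := 𝒪) 1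
      rw [Nat.cast_one] at this
      rw [this]; rfl
    · rw [map_zero]; rfl
  rw [this, zero_add, Matrix.mul_one, Matrix.one_mul]

/-- gauge by an invertible matrix -/
lemma Gauge_of {U Ui : Matrix I I (LaurentSeries 𝒪)} (h : U * Ui = 1) (h' : Ui * U = 1)
    (Q : Matrix I I (LaurentSeries 𝒪)) :
    Gauge (tht 𝒪) U Ui Q (Ui * (U.map (tht 𝒪) + Q * U)) :=
  ⟨h, h', by rw [← Matrix.mul_assoc, h, Matrix.one_mul]⟩

lemma ordGe_zero (m : ℤ) : OrdGe m (0 : LaurentSeries 𝒪) := fun _ _ => rfl

lemma ordGe_add {m : ℤ} {x y : LaurentSeries 𝒪} (hx : OrdGe m x) (hy : OrdGe m y) :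
    OrdGe m (x + y) := fun i hi => by rw [HahnSeries.coeff_add, hx i hi, hy i hi, add_zero]

lemma ordGe_sum {ι : Type} {m : ℤ} (s : Finset ι) (x : ι → LaurentSeries 𝒪)
    (h : ∀ i ∈ s, OrdGe m (x i)) : OrdGe m (∑ i ∈ s, x i) := by
  classical
  induction s using Finset.induction_on with
  | empty => rw [Finset.sum_empty]; exact ordGe_zero m
  | insert a s ha ih =>
    rw [Finset.sum_insert ha]
    exact ordGe_add (h a (Finset.mem_insert_self a s))
      (ih fun i hi => h i (Finset.mem_insert_of_mem hi))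

/-- finite support on the right -/
def LP (x : LaurentSeries 𝒪) (a : ℤ) : Prop := ∀ m : ℤ, a < m → x.coeff m = 0

lemma LP_mul {x y : LaurentSeries 𝒪} {a b : ℤ} (hx : LP x a) (hy : LP y b) :
    LP (x * y) (a + b) := by
  intro m hm
  rw [HahnSeries.coeff_mul]
  refine Finset.sum_eq_zero fun c hc => ?_
  rw [Finset.mem_antidiagonal] at hc
  by_cases h : a < c.1
  · rw [hx _ h, zero_mul]
  · rw [hy c.2 (by omega), mul_zero]

lemma lpol_mul {A B : Matrix I I (LaurentSeries 𝒪)} (hA : LPol A) (hB : LPol B) :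
    LPol (A * B) := by
  obtain ⟨a, ha⟩ := hA
  obtain ⟨b, hb⟩ := hB
  refine ⟨a + b, fun i j m hm => ?_⟩
  rw [Matrix.mul_apply, HahnSeries.coeff_sum]
  exact Finset.sum_eq_zero fun k _ => LP_mul (ha i k) (hb k j) m hm

/-- constant matrix -/
def cm (P : Matrix I I 𝒪) : Matrix I I (LaurentSeries 𝒪) := P.map HahnSeries.C

lemma lpol_cm (P : Matrix I I 𝒪) : LPol (cm P) := by
  refine ⟨0, fun i j m hm => ?_⟩
  change (HahnSeries.C (P i j)).coeff m = 0
  rw [HahnSeries.C_apply, HahnSeries.coeff_single_of_ne (ne_of_gt hm)]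

lemma cm_mul (P P' : Matrix I I 𝒪) : cm (P * P') = cm P * cm P' := Matrix.map_mul

lemma cm_one : cm (1 : Matrix I I 𝒪) = 1 := by
  unfold cm
  rw [Matrix.map_one]
  · exact map_zero _
  · exact map_one _

lemma cm_tht (P : Matrix I I 𝒪) : (cm P).map (tht 𝒪) = 0 := by
  refine Matrix.ext fun i j => ?_
  change tht 𝒪 (HahnSeries.C (P i j)) = 0
  exact tht_C _

lemma coeff_cm_mul (P : Matrix I I 𝒪) (Q : Matrix I I (LaurentSeries 𝒪)) (m : ℤ) :
    mco m (cm P * Q) = P * mco m Q := by
  ext i j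
  change ((cm P * Q) i j).coeff m = ∑ k, P i k * (Q k j).coeff m
  rw [Matrix.mul_apply, HahnSeries.coeff_sum]
  refine Finset.sum_congr rfl fun k _ => ?_
  change (HahnSeries.C (P i k) * Q k j).coeff m = _
  rw [HahnSeries.C_apply, HahnSeries.coeff_single_mul, sub_zero]

lemma coeff_mul_cm (P : Matrix I I 𝒪) (Q : Matrix I I (LaurentSeries 𝒪)) (m : ℤ) :
    mco m (Q * cm P) = mco m Q * P := by
  ext i j
  change ((Q * cm P) i j).coeff m = ∑ k, (Q i k).coeff m * P k j
  rw [Matrix.mul_apply, HahnSeries.coeff_sum]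
  refine Finset.sum_congr rfl fun k _ => ?_
  change (Q i k * HahnSeries.C (P k j)).coeff m = _
  rw [HahnSeries.C_apply, HahnSeries.coeff_mul_single, sub_zero]

lemma polF_iff (Q : Matrix I I (LaurentSeries 𝒪)) : PolF Q ↔ ∀ m : ℤ, m < 0 → mco m Q = 0 := by
  constructor
  · intro h m hm
    ext i j
    exact h i j m hm
  · intro h i j m hm
    exact congrFun (congrFun (h m hm) i) j

/-- constant gauge -/
lemma const_gauge {P Pi : Matrix I I 𝒪} (h : P * Pi = 1) (h' : Pi * P = 1)
    (Q : Matrix I I (LaurentSeries 𝒪)) :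
    Gauge (tht 𝒪) (cm P) (cm Pi) Q (cm Pi * Q * cm P) := by
  have h1 : cm P * cm Pi = 1 := by rw [← cm_mul, h, cm_one]
  have h2 : cm Pi * cm P = 1 := by rw [← cm_mul, h', cm_one]
  have := Gauge_of h1 h2 Q
  rw [cm_tht, zero_add, ← Matrix.mul_assoc] at this
  exact this

/-- diagonal shear at `i0` by `t^e` -/
def shr (i0 : I) (e : ℤ) : Matrix I I (LaurentSeries 𝒪) :=
  Matrix.diagonal fun i => if i = i0 then HahnSeries.single e 1 else 1

lemma shr_inv (i0 : I) (e : ℤ) : shr (𝒪 := 𝒪) i0 e * shr i0 (-e) = 1 := by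
  unfold shr
  rw [Matrix.diagonal_mul_diagonal, ← Matrix.diagonal_one]
  congr 1
  funext i
  split_ifs
  · rw [HahnSeries.single_mul_single, add_neg_cancel, mul_one]
    rfl
  · rw [mul_one]

lemma lpol_shr (i0 : I) (e : ℤ) : LPol (shr (𝒪 := 𝒪) i0 e) := by
  refine ⟨max e 0, fun i j m hm => ?_⟩
  unfold shr
  rw [Matrix.diagonal_apply]
  have h1 : e < m := lt_of_le_of_lt (le_max_left _ _) hm
  have h2 : 0 < m := lt_of_le_of_lt (le_max_right _ _) hm
  split_ifs
  · rw [HahnSeries.coeff_single_of_ne (ne_of_gt h1)]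
  · rw [HahnSeries.coeff_one, if_neg (ne_of_gt h2)]
  · rfl

lemma tht_single (e : ℤ) :
    tht 𝒪 (HahnSeries.single e 1) = (e : LaurentSeries 𝒪) * HahnSeries.single e 1 := by
  ext m
  have h : ((e : LaurentSeries 𝒪) * HahnSeries.single e 1).coeff m =
      (e : 𝒪) * (HahnSeries.single e (1 : 𝒪)).coeff m := by
    rw [← zsmul_eq_mul, ← zsmul_eq_mul]
    rfl
  rw [h, tht_coeff]
  by_cases hm : m = e
  · rw [hm]
  · rw [HahnSeries.coeff_single_of_ne hm, mul_zero, mul_zero]

/-- entries of the sheared matrix -/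
lemma shr_apply (i0 : I) (e : ℤ) (Q : Matrix I I (LaurentSeries 𝒪)) (i j : I) :
    (shr i0 (-e) * ((shr i0 e).map (tht 𝒪) + Q * shr i0 e) :
      Matrix I I (LaurentSeries 𝒪)) i j =
      if i = i0 then (if j = i0 then (e : LaurentSeries 𝒪) + Q i j
        else HahnSeries.single (-e) 1 * Q i j)
      else (if j = i0 then HahnSeries.single e 1 * Q i j else Q i j) := by
  have h1 : (shr (𝒪 := 𝒪) i0 e).map (tht 𝒪) =
      Matrix.diagonal fun i => if i = i0 then (e : LaurentSeries 𝒪) * HahnSeries.single e 1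
        else 0 := by
    ext k l
    unfold shr
    rw [Matrix.map_apply, Matrix.diagonal_apply, Matrix.diagonal_apply]
    split_ifs
    · rw [tht_single]
    · have := tht_nat (𝒪 := 𝒪) 1
      rw [Nat.cast_one] at this
      rw [this]
    · rw [map_zero]
  rw [h1]
  unfold shr
  rw [Matrix.diagonal_mul, Matrix.add_apply, Matrix.mul_diagonal, Matrix.diagonal_apply]
  have hs : (HahnSeries.single (-e) (1 : 𝒪) : LaurentSeries 𝒪) * HahnSeries.single e 1 = 1 := by
    rw [HahnSeries.single_mul_single, neg_add_cancel, mul_one]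
    rfl
  by_cases hi : i = i0
  · by_cases hj : j = i0
    · rw [if_pos hi, if_pos hi, if_pos hj, if_pos hj, if_pos (hi.trans hj.symm), if_pos hi]
      linear_combination ((e : LaurentSeries 𝒪) + Q i j) * hs
    · subst hi
      have hij : ¬ i = j := fun h => hj h.symm
      simp only [hij, hj, if_false, if_true, mul_one, zero_add]
  · by_cases hj : j = i0
    · subst hj
      simp only [hi, if_false, if_true, one_mul, zero_add]
      rw [mul_comm]
    · rw [if_neg hi, if_neg hi, if_neg hj, if_neg hj, one_mul, mul_one]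
      split_ifs
      · rw [zero_add]
      · rw [zero_add]

lemma ordGe_single_mul {e m : ℤ} {x : LaurentSeries 𝒪} (hx : OrdGe m x) :
    OrdGe (m + e) (HahnSeries.single e 1 * x) := by
  intro i hi
  rw [HahnSeries.coeff_single_mul, one_mul]
  exact hx _ (by omega)

lemma coeff_int (e : ℤ) (m : ℤ) : (e : LaurentSeries 𝒪).coeff m = if m = 0 then (e : 𝒪) else 0 := by
  have : (e : LaurentSeries 𝒪) = HahnSeries.C (e : 𝒪) := (map_intCast _ e).symm
  rw [this, HahnSeries.C_apply]
  split_ifs with h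
  · rw [h, HahnSeries.coeff_single_same]
  · rw [HahnSeries.coeff_single_of_ne h]

end gauge

section step
variable {k : Type} [Field k] {I : Type} [Fintype I] [DecidableEq I]

/-- the conclusion of a step -/
def Stp (Q : Matrix I I (LaurentSeries k)) (b : ℤ) (s' : Multiset ℤ) : Prop :=
  ∃ U Ui Q' : Matrix I I (LaurentSeries k), Gauge (tht k) U Ui Q Q' ∧ PolF Q' ∧ LPol U ∧
    (mco 0 Q').charpoly = (X - C (b : k)) * (s'.map fun a : ℤ => X - C (a : k)).prod

/-- positive step: column eigenvector, `a ↦ a - 1` -/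
lemma step_pos (Q : Matrix I I (LaurentSeries k)) (hQ : PolF Q) (a : ℤ) (s' : Multiset ℤ)
    (hc : (mco 0 Q).charpoly = (X - C (a : k)) * (s'.map fun a : ℤ => X - C (a : k)).prod) :
    Stp Q (a - 1) s' := by
  -- eigenvector
  have hdet : (Matrix.scalar I (a : k) - mco 0 Q).det = 0 := by
    rw [← Matrix.eval_charpoly, hc, eval_mul, eval_sub, eval_X, eval_C, sub_self, zero_mul]
  obtain ⟨v, hv0, hv⟩ := Matrix.exists_mulVec_eq_zero_iff.2 hdet
  rw [Matrix.sub_mulVec, sub_eq_zero] at hv
  have hv' : (mco 0 Q).mulVec v = (a : k) • v := by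
    rw [← hv, Matrix.scalar_apply]
    ext i
    rw [Matrix.mulVec_diagonal]
    rfl
  obtain ⟨i0, hi0⟩ : ∃ i, v i ≠ 0 := by
    by_contra hcon
    push Not at hcon
    exact hv0 (funext hcon)
  -- constant change of basis
  let P : Matrix I I k := (1 : Matrix I I k).updateCol i0 v
  have hP : IsUnit P.det := by
    have : P.det = v i0 := by
      change ((1 : Matrix I I k).updateCol i0 v).det = v i0
      rw [← Matrix.cramer_apply, Matrix.cramer_one]
      rfl
    rw [this]
    exact isUnit_iff_ne_zero.2 hi0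
  have h1 : P * P⁻¹ = 1 := Matrix.mul_nonsing_inv P hP
  have h2 : P⁻¹ * P = 1 := Matrix.nonsing_inv_mul P hP
  have g1 := const_gauge h1 h2 Q
  set Q1 := cm P⁻¹ * Q * cm P with hQ1
  have hco : ∀ m, mco m Q1 = P⁻¹ * mco m Q * P := by
    intro m
    rw [hQ1, coeff_mul_cm, coeff_cm_mul]
  have hQ1P : PolF Q1 := by
    rw [polF_iff]
    intro m hm
    rw [hco, (polF_iff Q).1 hQ m hm, Matrix.mul_zero, Matrix.zero_mul]
  have hPe : P.mulVec (Pi.single i0 1) = v := by
    rw [Matrix.mulVec_single_one]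
    ext i
    change (1 : Matrix I I k).updateCol i0 v i i0 = v i
    rw [Matrix.updateCol_self]
  have hcol : ∀ i, mco 0 Q1 i i0 = if i = i0 then (a : k) else 0 := by
    intro i
    have e : (mco 0 Q1).mulVec (Pi.single i0 1) = (a : k) • Pi.single i0 1 := by
      rw [hco, ← Matrix.mulVec_mulVec, hPe, ← Matrix.mulVec_mulVec, hv', Matrix.mulVec_smul]
      congr 1
      rw [← hPe, Matrix.mulVec_mulVec, h2, Matrix.one_mulVec]
    rw [Matrix.mulVec_single_one] at e
    have := congrFun e i
    rw [Pi.smul_apply, Pi.single_apply, smul_eq_mul] at this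
    change mco 0 Q1 i i0 = _ at this
    rw [this]
    split_ifs <;> simp
  -- shear
  have g2 : Gauge (tht k) (shr i0 (-1)) (shr i0 1) Q1
      (shr i0 1 * ((shr i0 (-1)).map (tht k) + Q1 * shr i0 (-1))) :=
    Gauge_of (by have := shr_inv (𝒪 := k) i0 (-1); rwa [neg_neg] at this)
      (shr_inv i0 1) Q1
  have happ := shr_apply i0 (-1) Q1
  rw [neg_neg] at happ
  set Q2 := shr i0 1 * ((shr i0 (-1)).map (tht k) + Q1 * shr i0 (-1)) with hQ2
  have hQ2P : PolF Q2 := by
    intro i j
    rw [happ]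
    split_ifs with hi hj hj
    · refine ordGe_add (fun m hm => ?_) (hQ1P i j)
      rw [coeff_int, if_neg (ne_of_lt hm)]
    · intro m hm
      exact ordGe_single_mul (e := 1) (hQ1P i j) m (by omega)
    · have h3 : OrdGe 1 (Q1 i j) := by
        intro m hm
        by_cases hm0 : m = 0
        · rw [hm0, hj]
          have := hcol i
          rw [if_neg hi] at this
          exact this
        · exact hQ1P i j m (by omega)
      have := ordGe_single_mul (e := -1) h3
      simpa using this
    · exact hQ1P i j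
  refine ⟨_, _, Q2, Gauge_trans g1 g2, hQ2P, lpol_mul (lpol_cm P) (lpol_shr i0 (-1)), ?_⟩
  have hval : ∀ i j, mco 0 Q2 i j = if i = i0 then (if j = i0 then ((a : k) - 1) else 0)
      else (if j = i0 then (Q1 i j).coeff 1 else mco 0 Q1 i j) := by
    intro i j
    change (Q2 i j).coeff 0 = _
    rw [happ]
    split_ifs with hi hj hj
    · rw [HahnSeries.coeff_add, coeff_int, if_pos rfl]
      have := hcol i
      rw [if_pos hi] at this
      rw [hj]
      change _ + mco 0 Q1 i i0 = _
      rw [this]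
      push_cast
      ring
    · rw [HahnSeries.coeff_single_mul, one_mul]
      exact hQ1P i j _ (by omega)
    · rw [HahnSeries.coeff_single_mul, one_mul]
      norm_num
    · rfl
  obtain ⟨r, hr1, hr2⟩ := charpoly_pair (mco 0 Q1) (mco 0 Q2) i0 (a : k) ((a : k) - 1) hcol
    (fun j => by rw [hval, if_pos rfl]) (fun i j hi hj => by rw [hval, if_neg hi, if_neg hj])
  have hch : (mco 0 Q1).charpoly = (mco 0 Q).charpoly := by
    rw [hco, Matrix.mul_assoc, Matrix.charpoly_mul_comm, Matrix.mul_assoc, h1, Matrix.mul_one]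
  rw [hch, hc] at hr1
  have hr : r = (s'.map fun a : ℤ => X - C (a : k)).prod :=
    (mul_left_cancel₀ (X_sub_C_ne_zero (a : k)) hr1).symm
  rw [hr2, hr]
  push_cast
  rfl

/-- negative step: row eigenvector, `a ↦ a + 1` -/
lemma step_neg (Q : Matrix I I (LaurentSeries k)) (hQ : PolF Q) (a : ℤ) (s' : Multiset ℤ)
    (hc : (mco 0 Q).charpoly = (X - C (a : k)) * (s'.map fun a : ℤ => X - C (a : k)).prod) :
    Stp Q (a + 1) s' := by
  -- left eigenvector
  have hdet : (Matrix.scalar I (a : k) - mco 0 Q).det = 0 := by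
    rw [← Matrix.eval_charpoly, hc, eval_mul, eval_sub, eval_X, eval_C, sub_self, zero_mul]
  obtain ⟨v, hv0, hv⟩ := Matrix.exists_vecMul_eq_zero_iff.2 hdet
  rw [Matrix.vecMul_sub, sub_eq_zero] at hv
  have hv' : Matrix.vecMul v (mco 0 Q) = (a : k) • v := by
    rw [← hv, Matrix.scalar_apply]
    ext i
    rw [Matrix.vecMul_diagonal, Pi.smul_apply, smul_eq_mul, mul_comm]
  obtain ⟨i0, hi0⟩ : ∃ i, v i ≠ 0 := by
    by_contra hcon
    push Not at hcon
    exact hv0 (funext hcon)
  -- constant change of basis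
  let R : Matrix I I k := (1 : Matrix I I k).updateRow i0 v
  have hR : IsUnit R.det := by
    have : R.det = v i0 := by
      change ((1 : Matrix I I k).updateRow i0 v).det = v i0
      rw [← Matrix.cramer_transpose_apply, Matrix.transpose_one, Matrix.cramer_one]
      rfl
    rw [this]
    exact isUnit_iff_ne_zero.2 hi0
  have h1 : R * R⁻¹ = 1 := Matrix.mul_nonsing_inv R hR
  have h2 : R⁻¹ * R = 1 := Matrix.nonsing_inv_mul R hR
  have g1 := const_gauge h2 h1 Q
  set Q1 := cm R * Q * cm R⁻¹ with hQ1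
  have hco : ∀ m, mco m Q1 = R * mco m Q * R⁻¹ := by
    intro m
    rw [hQ1, coeff_mul_cm, coeff_cm_mul]
  have hQ1P : PolF Q1 := by
    rw [polF_iff]
    intro m hm
    rw [hco, (polF_iff Q).1 hQ m hm, Matrix.mul_zero, Matrix.zero_mul]
  have hRe : Matrix.vecMul (Pi.single i0 1) R = v := by
    rw [Matrix.single_one_vecMul]
    ext i
    change (1 : Matrix I I k).updateRow i0 v i0 i = v i
    rw [Matrix.updateRow_self]
  have hrow : ∀ j, mco 0 Q1 i0 j = if j = i0 then (a : k) else 0 := by
    intro j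
    have e : Matrix.vecMul (Pi.single i0 1) (mco 0 Q1) = (a : k) • Pi.single i0 1 := by
      rw [hco, ← Matrix.vecMul_vecMul, ← Matrix.vecMul_vecMul, hRe, hv', Matrix.smul_vecMul]
      congr 1
      rw [← hRe, Matrix.vecMul_vecMul, h1, Matrix.vecMul_one]
    rw [Matrix.single_one_vecMul] at e
    have := congrFun e j
    rw [Pi.smul_apply, Pi.single_apply, smul_eq_mul] at this
    change mco 0 Q1 i0 j = _ at this
    rw [this]
    split_ifs <;> simp
  -- shear
  have g2 : Gauge (tht k) (shr i0 1) (shr i0 (-1)) Q1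
      (shr i0 (-1) * ((shr i0 1).map (tht k) + Q1 * shr i0 1)) :=
    Gauge_of (shr_inv i0 1) (by have := shr_inv (𝒪 := k) i0 (-1); rwa [neg_neg] at this) Q1
  have happ := shr_apply i0 1 Q1
  set Q2 := shr i0 (-1) * ((shr i0 1).map (tht k) + Q1 * shr i0 1) with hQ2
  have hQ2P : PolF Q2 := by
    intro i j
    rw [happ]
    split_ifs with hi hj hj
    · refine ordGe_add (fun m hm => ?_) (hQ1P i j)
      rw [coeff_int, if_neg (ne_of_lt hm)]
    · have h3 : OrdGe 1 (Q1 i j) := by
        intro m hm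
        by_cases hm0 : m = 0
        · rw [hm0, hi]
          have := hrow j
          rw [if_neg hj] at this
          exact this
        · exact hQ1P i j m (by omega)
      have := ordGe_single_mul (e := -1) h3
      simpa using this
    · intro m hm
      exact ordGe_single_mul (e := 1) (hQ1P i j) m (by omega)
    · exact hQ1P i j
  refine ⟨_, _, Q2, Gauge_trans g1 g2, hQ2P, lpol_mul (lpol_cm _) (lpol_shr i0 1), ?_⟩
  have hval : ∀ i j, mco 0 Q2 i j = if i = i0 then (if j = i0 then ((a : k) + 1)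
      else (Q1 i j).coeff 1) else (if j = i0 then 0 else mco 0 Q1 i j) := by
    intro i j
    change (Q2 i j).coeff 0 = _
    rw [happ]
    split_ifs with hi hj hj
    · rw [HahnSeries.coeff_add, coeff_int, if_pos rfl]
      have := hrow j
      rw [if_pos hj] at this
      rw [hi]
      change _ + mco 0 Q1 i0 j = _
      rw [this]
      push_cast
      ring
    · rw [HahnSeries.coeff_single_mul, one_mul]
      norm_num
    · rw [HahnSeries.coeff_single_mul, one_mul]
      exact hQ1P i j _ (by omega)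
    · rfl
  obtain ⟨r, hr1, hr2⟩ := charpoly_pair (mco 0 Q2) (mco 0 Q1) i0 ((a : k) + 1) (a : k)
    (fun i => by
      rw [hval]
      by_cases hi : i = i0
      · rw [if_pos hi, if_pos rfl, if_pos hi]
      · rw [if_neg hi, if_pos rfl, if_neg hi]) hrow
    (fun i j hi hj => by rw [hval, if_neg hi, if_neg hj])
  have hch : (mco 0 Q1).charpoly = (mco 0 Q).charpoly := by
    rw [hco, Matrix.mul_assoc, Matrix.charpoly_mul_comm, Matrix.mul_assoc, h2, Matrix.mul_one]
  rw [hch, hc] at hr2
  have hr : r = (s'.map fun a : ℤ => X - C (a : k)).prod :=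
    (mul_left_cancel₀ (X_sub_C_ne_zero (a : k)) hr2).symm
  rw [hr1, hr]
  push_cast
  rfl

theorem shear_ind (n : ℕ) : ∀ (Q : Matrix I I (LaurentSeries k)) (s : Multiset ℤ), PolF Q →
    (mco 0 Q).charpoly = (s.map fun a : ℤ => X - C (a : k)).prod →
    (s.map Int.natAbs).sum = n →
    ∃ U Ui Q' : Matrix I I (LaurentSeries k), Gauge (tht k) U Ui Q Q' ∧ PolF Q' ∧
      (mco 0 Q') ^ Fintype.card I = 0 ∧ LPol U := by
  induction n with
  | zero =>
    intro Q s hQ hc hs
    refine ⟨1, 1, Q, Gauge_refl Q, hQ, ?_, ?_⟩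
    · have h0 : ∀ a ∈ s, a = 0 := by
        intro a ha
        have h1 : Int.natAbs a ≤ (s.map Int.natAbs).sum :=
          Multiset.single_le_sum (fun _ _ => Nat.zero_le _) _ (Multiset.mem_map_of_mem _ ha)
        rw [hs] at h1
        exact Int.natAbs_eq_zero.1 (Nat.le_zero.1 h1)
      have h1 : (s.map fun a : ℤ => X - C (a : k)) = s.map fun _ => (X : k[X]) := by
        refine Multiset.map_congr rfl fun a ha => ?_
        rw [h0 a ha, Int.cast_zero, C_0, sub_zero]
      rw [h1, Multiset.map_const', Multiset.prod_replicate] at hc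
      have h2 : Fintype.card I = Multiset.card s := by
        rw [← Matrix.charpoly_natDegree_eq_dim (mco 0 Q), hc, natDegree_X_pow]
      have h3 := Matrix.aeval_self_charpoly (mco 0 Q)
      rw [hc, map_pow, aeval_X] at h3
      rw [h2]
      exact h3
    · have := lpol_cm (1 : Matrix I I k)
      rwa [cm_one] at this
  | succ n ih =>
    intro Q s hQ hc hs
    obtain ⟨a, ha, ha0⟩ : ∃ a ∈ s, a ≠ 0 := by
      by_contra hcon
      push Not at hcon
      have : (s.map Int.natAbs).sum = 0 := by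
        rw [Multiset.sum_eq_zero_iff]
        intro m hm
        obtain ⟨a, ha, rfl⟩ := Multiset.mem_map.1 hm
        rw [hcon a ha]
        rfl
      omega
    obtain ⟨s', rfl⟩ := Multiset.exists_cons_of_mem ha
    rw [Multiset.map_cons, Multiset.prod_cons] at hc
    rw [Multiset.map_cons, Multiset.sum_cons] at hs
    have key : ∃ b : ℤ, b.natAbs + 1 = a.natAbs ∧ Stp Q b s' := by
      rcases lt_or_gt_of_ne ha0 with h | h
      · exact ⟨a + 1, by omega, step_neg Q hQ a s' hc⟩
      · exact ⟨a - 1, by omega, step_pos Q hQ a s' hc⟩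
    obtain ⟨b, hb, U, Ui, Q', hg, hQ', hU, hc'⟩ := key
    obtain ⟨V, Vi, Q'', hg', hQ'', hn, hV⟩ := ih Q' (b ::ₘ s') hQ'
      (by rw [Multiset.map_cons, Multiset.prod_cons]; exact hc')
      (by rw [Multiset.map_cons, Multiset.sum_cons]; omega)
    exact ⟨_, _, Q'', Gauge_trans hg hg', hQ'', hn, lpol_mul hU hV⟩

end step

lemma list_cast {k : Type} [Field k] (al : List ℤ) :
    (do let a ← al; pure (a : k) : List k) = al.map fun a : ℤ => (a : k) := by
  have h : ∀ al : List ℤ, List.flatMap (fun a : ℤ => [(a : k)]) al = al.map fun a : ℤ => (a : k) := by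
    intro al
    induction al with
    | nil => rfl
    | cons a al ih => rw [List.flatMap_cons, ih]; rfl
  exact h al

/-- SHEAR -/
theorem shear : ShearStmt := by
  intro k _ _ I _ _ Q al hQ hc
  refine shear_ind _ Q (al : Multiset ℤ) hQ ?_ rfl
  rw [hc, Multiset.map_coe, Multiset.prod_coe, list_cast, List.map_map]
  rfl

end Pool.Agent.Helper95_CM.H51S
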